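import Pool.Agent.H87.DW.Ren
import Pool.Agent.H85.DG.Defs
import Pool.Agent.H48.PI.BetA

/-!
# Test functions `TF`: weak form, shared lemmas of the modules WkN, WkR (H85/DG)
-/

set_option autoImplicit false

open MeasureTheory Set Filter Topology Pool.Agent.H25.Kin Pool.Agent.H48.PL Pool.Agent.H48.PI Pool.Agent.H48.PW
open Pool.Agent.H82.BK (bt bcut Kn hh co BB dir)
open Pool.Agent.H15.AV (kt vp wp kt_meas measurable_vp measurable_wp kt_coll vp_coll wp_coll kt_int kt_nonneg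
  kt_swap kt_swap_int boltzCut_fold)
open Pool.Agent.H15.G1 (qC cu_ang)
open Pool.Agent.H85.DG (TF)
open scoped ENNReal

namespace Pool.Agent.H87.DW

variable {d p : ℕ} {s γ C Ca ε : ℝ} {b : ℝ → ℝ}

lemma int_gg_pg (H : Hyp d γ s b C Ca) (hε : 0 < ε) {g : Vec d → ℝ} (hg : RD g) (hgm : Measurable g)
    {F : Vec d × Vec d × Vec d → ℝ} (hF : Measurable F) {B : ℝ} {N : ℕ} (hB0 : 0 ≤ B)
    (hB : ∀ q : Vec d × Vec d × Vec d, nsq q.2.2 = 1 → |F q| ≤ B * ((1 + ‖q.1‖) * (1 + ‖q.2.1‖)) ^ N) :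
    Integrable (fun q => kt γ b ε q * (g q.2.1 * g q.1 * F q)) (mu3 d) := by
  obtain ⟨K, hK0, hK⟩ := hg.bound (d + 1 + (d + 5) + N)
  refine kt_int H hε (((hgm.comp (measurable_fst.comp measurable_snd)).mul (hgm.comp measurable_fst)).mul hF)
    (A := K * K * B) (by positivity) fun q hq _ => ?_
  have h1 := hK q.1
  have h2 := hK q.2.1
  have h3 := hB q hq
  rw [Real.norm_eq_abs] at h1 h2
  have p1 := pow_pos (w_pos q.1) (d + 1 + (d + 5) + N)
  have p2 := pow_pos (w_pos q.2.1) (d + 1 + (d + 5) + N)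
  have e := pw_mul (d + 1 + (d + 5)) N q.1 q.2.1
  rw [abs_mul, abs_mul]
  calc |g q.2.1| * |g q.1| * |F q|
      ≤ (K * ((1 + ‖q.2.1‖) ^ (d + 1 + (d + 5) + N))⁻¹) * (K * ((1 + ‖q.1‖) ^ (d + 1 + (d + 5) + N))⁻¹) *
          (B * ((1 + ‖q.1‖) * (1 + ‖q.2.1‖)) ^ N) := by gcongr
    _ = K * K * B * (pw (d + 1 + (d + 5) + N) q.1 q.2.1 * ((1 + ‖q.1‖) * (1 + ‖q.2.1‖)) ^ N) := by
        unfold pw
        rw [mul_pow (1 + ‖q.1‖) _ (d + 1 + (d + 5) + N), mul_inv]
        ring
    _ = _ := by rw [e]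

theorem cut_fold_pg (H : Hyp d γ s b C Ca) (hε : 0 < ε) {g : Vec d → ℝ} (hg : RD g)
    (hgc : Continuous g) {ψ : Vec d → ℝ} (hψ : Measurable ψ) (hPG : PG ψ) :
    ∫ v, boltzCut γ b ε g v * ψ v =
      ∫ q, kt γ b ε q * (g q.2.1 * g q.1 * (ψ (vp q) - ψ q.1)) ∂(mu3 d) := by
  have hgm := hgc.measurable
  obtain ⟨N, B, hB0, hB⟩ := pg_post_le hPG
  have iA := int_gg_pg (γ := γ) H hε hg hgm (F := fun q => ψ (vp q)) (hψ.comp measurable_vp) hB0
    (fun q hq => (hB q.1 q.2.1 q.2.2 hq).2.2.1)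
  have iB := int_gg_pg (γ := γ) H hε hg hgm (F := fun q => ψ q.1) (hψ.comp measurable_fst) hB0
    (fun q hq => (hB q.1 q.2.1 q.2.2 hq).1)
  have hF : Measurable fun q : Vec d × Vec d × Vec d × Vec d =>
      (fun v w v' _ : Vec d => g w * g v * ψ v') q.1 q.2.1 q.2.2.1 q.2.2.2 := by
    have m1 : Measurable fun q : Vec d × Vec d × Vec d × Vec d => g q.2.1 :=
      hgm.comp (measurable_fst.comp measurable_snd)
    have m2 : Measurable fun q : Vec d × Vec d × Vec d × Vec d => g q.1 := hgm.comp measurable_fst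
    have m3 : Measurable fun q : Vec d × Vec d × Vec d × Vec d => ψ q.2.2.1 :=
      hψ.comp (measurable_fst.comp (measurable_snd.comp measurable_snd))
    exact (m1.mul m2).mul m3
  have iC := kt_swap_int (γ := γ) (b := b) (ε := ε) H.hd1 H.bm
    (F := fun v w v' _ : Vec d => g w * g v * ψ v') hF iA
  have eC := kt_swap (γ := γ) (b := b) (ε := ε) H.hd1 H.bm
    (F := fun v w v' _ : Vec d => g w * g v * ψ v') hF
  have i3 : Integrable (fun q => kt γ b ε q *
      (ψ q.1 * (g (wp q) * g (vp q) - g q.2.1 * g q.1))) (mu3 d) := by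
    refine (iC.sub iB).congr (Eventually.of_forall fun q => ?_)
    simp only [Pi.sub_apply]
    ring
  have e1 : ∫ v, boltzCut γ b ε g v * ψ v =
      ∫ q, kt γ b ε q * (ψ q.1 * (g (wp q) * g (vp q) - g q.2.1 * g q.1)) ∂(mu3 d) := by
    rw [integral_prod _ i3]
    refine integral_congr_ae ?_
    filter_upwards [i3.prod_right_ae] with v hv
    rw [integral_prod _ hv, boltzCut_fold H hε hg hgc v, mul_comm, ← integral_const_mul]
    refine integral_congr_ae (Eventually.of_forall fun w => ?_)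
    simp only
    rw [← integral_const_mul]
    refine integral_congr_ae (Eventually.of_forall fun σ => ?_)
    simp only [wp, vp]
    ring
  have e2 : ∫ q, kt γ b ε q * (ψ q.1 * (g (wp q) * g (vp q) - g q.2.1 * g q.1)) ∂(mu3 d) =
      (∫ q, kt γ b ε q * (g (wp q) * g (vp q) * ψ q.1) ∂(mu3 d)) -
        ∫ q, kt γ b ε q * (g q.2.1 * g q.1 * ψ q.1) ∂(mu3 d) := by
    rw [← integral_sub iC iB]
    refine integral_congr_ae (Eventually.of_forall fun q => ?_)
    simp only
    ring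
  have e3 : ∫ q, kt γ b ε q * (g q.2.1 * g q.1 * (ψ (vp q) - ψ q.1)) ∂(mu3 d) =
      (∫ q, kt γ b ε q * (g q.2.1 * g q.1 * ψ (vp q)) ∂(mu3 d)) -
        ∫ q, kt γ b ε q * (g q.2.1 * g q.1 * ψ q.1) ∂(mu3 d) := by
    rw [← integral_sub iA iB]
    refine integral_congr_ae (Eventually.of_forall fun q => ?_)
    simp only
    ring
  rw [e1, e2, e3]
  congr 1

/-! ### densities with `g (1+|v|²)^p ≤ A`, `2p ≥ d + γ + 4` -/

/-- `⟨v⟩^(-(d+1))` -/
noncomputable def jI (v : Vec d) : ℝ := (jb v ^ (d + 1))⁻¹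

lemma jI_nn (v : Vec d) : 0 ≤ jI v := by
  have := jb_pos v
  unfold jI; positivity

lemma jI_le (v : Vec d) : jI v ≤ 2 ^ (d + 1) * wt d v := by
  unfold jI wt
  have h1 := one_add_norm_le v
  have h0 := jb_pos v
  have hw := w_pos v
  rw [inv_le_comm₀ (by positivity) (by positivity), mul_inv, inv_inv, ← inv_pow, ← mul_pow]
  refine pow_le_pow_left₀ (by positivity) ?_ _
  linarith

lemma jI_int : Integrable (jI (d := d)) := by
  have hm : Measurable (jI (d := d)) := (jb_cont.measurable.pow_const _).inv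
  refine (integrable_wt.const_mul (2 ^ (d + 1))).mono' hm.aestronglyMeasurable (Eventually.of_forall fun v => ?_)
  rw [Real.norm_eq_abs, abs_of_nonneg (jI_nn v)]
  exact jI_le v

/-- `g ⟨v⟩^(2+γ) ≤ A ⟨v⟩^(-(d+1))` -/
lemma g_jI {A : ℝ} (hA : 0 ≤ A) (hp : (d : ℝ) + γ + 4 ≤ 2 * p) {g : Vec d → ℝ}
    (hg : ∀ v, g v * (1 + nsq v) ^ p ≤ A) (v : Vec d) : g v * jb v ^ (2 + γ) ≤ A * jI v := by
  have h1 := one_le_jb v
  have h0 := jb_pos v
  have h2 := hg v
  have e1 : (1 + nsq v) ^ p = jb v ^ ((2 * p : ℝ)) := by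
    rw [← jb_sq, ← pow_mul, ← Real.rpow_natCast]
    push_cast
    rfl
  have hpp := Real.rpow_pos_of_pos h0 ((2 * p : ℝ))
  have h3 : g v ≤ A * jb v ^ (-(2 * p : ℝ)) := by
    rw [Real.rpow_neg h0.le, ← div_eq_mul_inv, le_div_iff₀ hpp, ← e1]
    exact h2
  have h4 := Real.rpow_pos_of_pos h0 (2 + γ)
  calc g v * jb v ^ (2 + γ) ≤ A * jb v ^ (-(2 * p : ℝ)) * jb v ^ (2 + γ) :=
        mul_le_mul_of_nonneg_right h3 h4.le
    _ = A * jb v ^ (-(2 * p : ℝ) + (2 + γ)) := by rw [mul_assoc, ← Real.rpow_add h0]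
    _ ≤ A * jb v ^ (-((d : ℝ) + 1)) := by
        refine mul_le_mul_of_nonneg_left ?_ hA
        exact Real.rpow_le_rpow_of_exponent_le h1 (by linarith)
    _ = A * jI v := by
        unfold jI
        rw [Real.rpow_neg h0.le]
        congr 2
        rw [← Real.rpow_natCast]
        push_cast
        rfl

/-- the size of the pair factor -/
lemma S_pow (hγ : 0 ≤ γ) (hγ1 : γ ≤ 1) (v w : Vec d) :
    (jb v + jb w) ^ (2 + γ) ≤ 8 * (jb v ^ (2 + γ) * jb w ^ (2 + γ)) := by
  have v1 := one_le_jb v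
  have w1 := one_le_jb w
  have v0 := jb_pos v
  have w0 := jb_pos w
  have h1 : jb v + jb w ≤ 2 * (jb v * jb w) := by nlinarith [mul_nonneg (sub_nonneg.2 v1) (sub_nonneg.2 w1)]
  calc (jb v + jb w) ^ (2 + γ) ≤ (2 * (jb v * jb w)) ^ (2 + γ) :=
        Real.rpow_le_rpow (by positivity) h1 (by linarith)
    _ = 2 ^ (2 + γ) * (jb v ^ (2 + γ) * jb w ^ (2 + γ)) := by
        rw [Real.mul_rpow (by norm_num) (by positivity), Real.mul_rpow v0.le w0.le]
    _ ≤ 8 * (jb v ^ (2 + γ) * jb w ^ (2 + γ)) := by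
        have h2 : (2 : ℝ) ^ (2 + γ) ≤ 8 := by
          calc (2 : ℝ) ^ (2 + γ) ≤ 2 ^ (3 : ℝ) := Real.rpow_le_rpow_of_exponent_le (by norm_num) (by linarith)
            _ = 8 := by norm_num
        gcongr

/-- W1 for `TF` -/
theorem tf_w1 (H : Hyp d γ s b C Ca) (hγ : 0 ≤ γ) (hγ1 : γ ≤ 1) (h2s : 2 * s < 1)
    (hp : (d : ℝ) + γ + 4 ≤ 2 * p) : ∃ C₁ : ℝ, 0 ≤ C₁ ∧ ∀ ε : ℝ, 0 < ε → ε ≤ 1 → ∀ g h : Vec d → ℝ,
      Measurable g → Measurable h → (∀ v, 0 ≤ g v) → ∀ A : ℝ, (∀ v, g v * (1 + nsq v) ^ p ≤ A) →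
      (∀ v, 0 ≤ h v) → (∀ v, h v ≤ g v) → ∀ (K : ℝ) (ψ : Vec d → ℝ), TF K ψ →
      |∫ q, kt γ b ε q * (g q.2.1 * h q.1 * (ψ (vp q) - ψ q.1)) ∂(mu3 d)| ≤ C₁ * K * A ^ 2 := by
  have hs := H.hs
  obtain ⟨K₁, hK₁, hang⟩ := cu_ang H h2s
  set J : ℝ := ∫ v, jI (d := d) v with hJ
  have hJ0 : 0 ≤ J := integral_nonneg fun v => jI_nn v
  refine ⟨32 * K₁ * J ^ 2, by positivity, fun ε hε hε1 g h hgm hhm hg0 A hgA hh0 hhg K ψ hψ => ?_⟩
  have hA : 0 ≤ A := (mul_nonneg (hg0 0) (by have := sq_nonneg' (0 : Vec d); positivity)).trans (hgA 0)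
  have hK : 0 ≤ K := by
    have h1 := (abs_nonneg _).trans (hψ.h0 0)
    have h2 := jb_pos (0 : Vec d)
    exact nonneg_of_mul_nonneg_left h1 h2
  have hhA : ∀ v, h v * (1 + nsq v) ^ p ≤ A := fun v =>
    (mul_le_mul_of_nonneg_right (hhg v) (by have := sq_nonneg' v; positivity)).trans (hgA v)
  have h2 := norm_integral_le_lintegral_norm (μ := mu3 d)
    (fun q => kt γ b ε q * (g q.2.1 * h q.1 * (ψ (vp q) - ψ q.1)))
  rw [Real.norm_eq_abs] at h2
  refine h2.trans (ENNReal.toReal_le_of_le_ofReal (by positivity) ?_)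
  have hψm := hψ.cont.measurable
  have hmeas : Measurable fun q : Vec d × Vec d × Vec d =>
      ENNReal.ofReal ‖kt γ b ε q * (g q.2.1 * h q.1 * (ψ (vp q) - ψ q.1))‖ :=
    (((kt_meas H.bm).mul (((hgm.comp (measurable_fst.comp measurable_snd)).mul (hhm.comp measurable_fst)).mul
      ((hψm.comp measurable_vp).sub (hψm.comp measurable_fst)))).norm).ennreal_ofReal
  have hne : Nonempty (Fin d) := ⟨⟨0, by have := H.hd1; omega⟩⟩
  have key : ∀ v w : Vec d, v ≠ w →
      ∫⁻ σ, ENNReal.ofReal ‖kt γ b ε (v, w, σ) * (g w * h v * (ψ (vp (v, w, σ)) - ψ v))‖ ∂(surf d) ≤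
        ENNReal.ofReal (32 * K₁ * K * A ^ 2 * jI v) * ENNReal.ofReal (jI w) := by
    intro v w hvw
    have hl0 := len_nonneg (v - w)
    have hV := Real.rpow_nonneg hl0 γ
    have hgw := hg0 w
    have hhv := hh0 v
    set S : ℝ := jb v + jb w with hS
    have hS1 : 1 ≤ S := by linarith [one_le_jb v, one_le_jb w]
    have h1 : ∫⁻ σ, ENNReal.ofReal ‖kt γ b ε (v, w, σ) * (g w * h v * (ψ (vp (v, w, σ)) - ψ v))‖ ∂(surf d) ≤
        ∫⁻ σ, ENNReal.ofReal (len (v - w) ^ γ * (g w * h v) * (K * (2 * S))) *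
          ENNReal.ofReal (bt b ε (cosTh v w σ) * min 1 (len (post v w σ - v) / 1)) ∂(surf d) := by
      refine lintegral_mono_ae ?_
      filter_upwards [surf_ae] with σ hσ
      have hvp : vp (v, w, σ) = post v w σ := rfl
      rw [hvp]
      have hbt : 0 ≤ bt b ε (cosTh v w σ) := by
        have hc1 := abs_le.1 (abs_cosTh_le (v := v) (w := w) hσ)
        exact Pool.Agent.H82.BK.bt_nonneg H.bd hε hc1.1 hc1.2
      rw [← ENNReal.ofReal_mul (by positivity)]
      refine ENNReal.ofReal_le_ofReal ?_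
      have h3 := hψ.h1 (post v w σ) v
      have h4 : jb (post v w σ) + jb v ≤ 2 * S := by
        have a1 := jb_post_le (v := v) (w := w) hσ
        have a2 := RR_le v w
        have a3 := jb_pos w
        linarith
      have hmn : 0 ≤ min 1 (len (post v w σ - v)) := le_min zero_le_one (len_nonneg _)
      have hkt : kt γ b ε (v, w, σ) = len (v - w) ^ γ * bt b ε (cosTh v w σ) := rfl
      rw [div_one, hkt, Real.norm_eq_abs, abs_mul, abs_mul (g w * h v), abs_of_nonneg (mul_nonneg hV hbt),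
        abs_of_nonneg (mul_nonneg hgw hhv)]
      calc len (v - w) ^ γ * bt b ε (cosTh v w σ) * (g w * h v * |ψ (post v w σ) - ψ v|)
          ≤ len (v - w) ^ γ * bt b ε (cosTh v w σ) * (g w * h v *
            (K * (min 1 (len (post v w σ - v)) * (2 * S)))) := by
            gcongr
            exact h3.trans (by gcongr)
        _ = _ := by ring
    refine h1.trans ?_
    rw [lintegral_const_mul' _ _ ENNReal.ofReal_ne_top]
    refine (mul_le_mul_right (hang ε hε hε1 v w hvw 1 one_pos) _).trans ?_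
    have hjv := jI_nn v
    have hjw := jI_nn w
    rw [← ENNReal.ofReal_mul (by positivity), ← ENNReal.ofReal_mul (by positivity)]
    refine ENNReal.ofReal_le_ofReal ?_
    have h5 : qC s ε 1 v w ≤ 2 * S := by
      have hV0 : 0 < nsq (v - w) := sq_pos_of_ne (sub_ne_zero.2 hvw)
      have hl : 0 < len (v - w) := len_pos (sub_ne_zero.2 hvw)
      have hlS : len (v - w) ≤ S := by
        have := len_sub_le v w
        have := len_le_jb v
        have := len_le_jb w
        linarith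
      have h6 : qC s ε 1 v w ≤ 1 + len (v - w) ^ (2 * s) := by
        unfold qC
        set x : ℝ := (1 : ℝ) ^ 2 / nsq (v - w) with hx
        have hx0 : 0 < x := by positivity
        have hm : 0 < min 1 x := lt_min one_pos hx0
        have h1 : max ε (min 1 x) ^ (-s) ≤ (min 1 x) ^ (-s) :=
          Real.rpow_le_rpow_of_nonpos hm (le_max_right _ _) (by linarith)
        refine h1.trans ?_
        have h2 : 0 ≤ len (v - w) ^ (2 * s) := by positivity
        rcases le_total 1 x with hc | hc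
        · rw [min_eq_left hc, Real.one_rpow]; linarith
        · rw [min_eq_right hc]
          have e : x ^ (-s) = len (v - w) ^ (2 * s) := by
            rw [hx, one_pow, one_div, Real.inv_rpow hV0.le, Real.rpow_neg hV0.le, inv_inv, ← len_sq,
              ← Real.rpow_natCast, ← Real.rpow_mul hl.le]
            norm_num
          rw [e]; linarith
      have h7 : len (v - w) ^ (2 * s) ≤ S := by
        calc len (v - w) ^ (2 * s) ≤ S ^ (2 * s) := Real.rpow_le_rpow hl.le hlS (by linarith)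
          _ ≤ S ^ (1 : ℝ) := Real.rpow_le_rpow_of_exponent_le hS1 (by linarith)
          _ = S := Real.rpow_one S
      linarith
    have h8 : len (v - w) ^ γ ≤ S ^ γ := by
      refine Real.rpow_le_rpow hl0 ?_ hγ
      have := len_sub_le v w
      have := len_le_jb v
      have := len_le_jb w
      linarith
    have h9 := S_pow hγ hγ1 v w
    have h10 := g_jI hA hp hgA w
    have h11 := g_jI hA hp hhA v
    have e3 : S ^ γ * S ^ (2 : ℕ) = S ^ (2 + γ) := by
      rw [← Real.rpow_natCast S 2, ← Real.rpow_add (by linarith)]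
      congr 1
      push_cast
      ring
    have hjv0 := jb_pos v
    have hjw0 := jb_pos w
    have hq0 : 0 ≤ qC s ε 1 v w := by
      unfold qC
      exact Real.rpow_nonneg (le_max_of_le_left hε.le) _
    calc len (v - w) ^ γ * (g w * h v) * (K * (2 * S)) * (K₁ * qC s ε 1 v w)
        ≤ S ^ γ * (g w * h v) * (K * (2 * S)) * (K₁ * (2 * S)) := by gcongr
      _ = 4 * K₁ * K * (g w * h v) * (S ^ γ * S ^ 2) := by ring
      _ ≤ 4 * K₁ * K * (g w * h v) * (8 * (jb v ^ (2 + γ) * jb w ^ (2 + γ))) := by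
          rw [e3]; gcongr
      _ = 32 * K₁ * K * ((g w * jb w ^ (2 + γ)) * (h v * jb v ^ (2 + γ))) := by ring
      _ ≤ 32 * K₁ * K * ((A * jI w) * (A * jI v)) := by gcongr
      _ = _ := by ring
  have hw : ∫⁻ w : Vec d, ENNReal.ofReal (jI w) = ENNReal.ofReal J := by
    rw [← ofReal_integral_eq_lintegral_ofReal jI_int (Eventually.of_forall fun w => jI_nn w)]
  rw [lintegral_prod _ hmeas.aemeasurable]
  calc ∫⁻ v, ∫⁻ y : Vec d × Vec d, ENNReal.ofReal ‖kt γ b ε (v, y) * (g (v, y).2.1 * h (v, y).1 *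
        (ψ (vp (v, y)) - ψ (v, y).1))‖ ∂((volume : Measure (Vec d)).prod (surf d))
      ≤ ∫⁻ v : Vec d, ENNReal.ofReal (32 * K₁ * K * A ^ 2 * jI v) * ENNReal.ofReal J := by
        refine lintegral_mono fun v => ?_
        have hm' : Measurable fun y : Vec d × Vec d => ENNReal.ofReal ‖kt γ b ε (v, y) *
            (g (v, y).2.1 * h (v, y).1 * (ψ (vp (v, y)) - ψ (v, y).1))‖ := hmeas.comp measurable_prodMk_left
        rw [lintegral_prod _ hm'.aemeasurable, ← hw, ← lintegral_const_mul' _ _ ENNReal.ofReal_ne_top]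
        have h00 : ∀ᵐ w : Vec d ∂volume, w ∉ ({v} : Set (Vec d)) :=
          (Set.countable_singleton v).ae_notMem volume
        refine lintegral_mono_ae ?_
        filter_upwards [h00] with w hw0
        exact key v w fun h => hw0 h.symm
    _ = (∫⁻ v : Vec d, ENNReal.ofReal (32 * K₁ * K * A ^ 2 * jI v)) * ENNReal.ofReal J :=
        lintegral_mul_const' _ _ ENNReal.ofReal_ne_top
    _ = ENNReal.ofReal (32 * K₁ * K * A ^ 2 * J) * ENNReal.ofReal J := by
        rw [← ofReal_integral_eq_lintegral_ofReal (jI_int.const_mul _) (Eventually.of_forall fun v => by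
          have := jI_nn v
          positivity), integral_const_mul]
    _ = _ := by
        rw [← ENNReal.ofReal_mul (by positivity)]
        congr 1
        ring
    _ ≤ _ := le_rfl

/-- the pairing for `|Q v| ≤ K ⟨v⟩ g(v)` -/
theorem pair_tf (hγ : 0 ≤ γ) (hγ1 : γ ≤ 1) (hp : (d : ℝ) + γ + 4 ≤ 2 * p) :
    ∃ C₁ : ℝ, 0 ≤ C₁ ∧ ∀ g : Vec d → ℝ, (∀ v, 0 ≤ g v) → ∀ A : ℝ, (∀ v, g v * (1 + nsq v) ^ p ≤ A) →
      ∀ (K : ℝ) (Q : Vec d → ℝ), 0 ≤ K → (∀ v, |Q v| ≤ K * jb v * g v) →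
      ∫⁻ v : Vec d, ∫⁻ w : Vec d, ENNReal.ofReal (len (v - w) ^ γ * (g w * |Q v|)) ≤
        ENNReal.ofReal (C₁ * K * A ^ 2) := by
  set J : ℝ := ∫ v, jI (d := d) v with hJ
  have hJ0 : 0 ≤ J := integral_nonneg fun v => jI_nn v
  refine ⟨8 * J ^ 2, by positivity, fun g hg0 A hgA K Q hK hQ => ?_⟩
  have hA : 0 ≤ A := (mul_nonneg (hg0 0) (by have := sq_nonneg' (0 : Vec d); positivity)).trans (hgA 0)
  have key : ∀ v w : Vec d, ENNReal.ofReal (len (v - w) ^ γ * (g w * |Q v|)) ≤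
      ENNReal.ofReal (8 * K * A ^ 2 * jI v) * ENNReal.ofReal (jI w) := by
    intro v w
    have hjv := jI_nn v
    have hjw := jI_nn w
    rw [← ENNReal.ofReal_mul (by positivity)]
    refine ENNReal.ofReal_le_ofReal ?_
    have hl0 := len_nonneg (v - w)
    have hgw := hg0 w
    have hgv := hg0 v
    have hjv0 := jb_pos v
    have hjw0 := jb_pos w
    set S : ℝ := jb v + jb w with hS
    have hS1 : 1 ≤ S := by linarith [one_le_jb v, one_le_jb w]
    have h8 : len (v - w) ^ γ ≤ S ^ γ := by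
      refine Real.rpow_le_rpow hl0 ?_ hγ
      have := len_sub_le v w
      have := len_le_jb v
      have := len_le_jb w
      linarith
    have h9 := S_pow hγ hγ1 v w
    have h10 := g_jI hA hp hgA w
    have h11 := g_jI hA hp hgA v
    have e3 : S ^ γ * S ^ (2 : ℕ) = S ^ (2 + γ) := by
      rw [← Real.rpow_natCast S 2, ← Real.rpow_add (by linarith)]
      congr 1
      push_cast
      ring
    have h12 : jb v ≤ S ^ (2 : ℕ) := by nlinarith
    have hSγ : 0 ≤ S ^ γ := Real.rpow_nonneg (by linarith) _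
    calc len (v - w) ^ γ * (g w * |Q v|) ≤ S ^ γ * (g w * (K * jb v * g v)) := by
          gcongr
          exact hQ v
      _ = K * (g w * g v) * (S ^ γ * jb v) := by ring
      _ ≤ K * (g w * g v) * (S ^ γ * S ^ 2) := by gcongr
      _ ≤ K * (g w * g v) * (8 * (jb v ^ (2 + γ) * jb w ^ (2 + γ))) := by
          rw [e3]; gcongr
      _ = 8 * K * ((g w * jb w ^ (2 + γ)) * (g v * jb v ^ (2 + γ))) := by ring
      _ ≤ 8 * K * ((A * jI w) * (A * jI v)) := by gcongr
      _ = _ := by ring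
  have hw : ∫⁻ w : Vec d, ENNReal.ofReal (jI w) = ENNReal.ofReal J := by
    rw [← ofReal_integral_eq_lintegral_ofReal jI_int (Eventually.of_forall fun w => jI_nn w)]
  calc ∫⁻ v : Vec d, ∫⁻ w : Vec d, ENNReal.ofReal (len (v - w) ^ γ * (g w * |Q v|))
      ≤ ∫⁻ v : Vec d, ENNReal.ofReal (8 * K * A ^ 2 * jI v) * ENNReal.ofReal J := by
        refine lintegral_mono fun v => ?_
        rw [← hw, ← lintegral_const_mul' _ _ ENNReal.ofReal_ne_top]
        exact lintegral_mono fun w => key v w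
    _ = (∫⁻ v : Vec d, ENNReal.ofReal (8 * K * A ^ 2 * jI v)) * ENNReal.ofReal J :=
        lintegral_mul_const' _ _ ENNReal.ofReal_ne_top
    _ = ENNReal.ofReal (8 * K * A ^ 2 * J) * ENNReal.ofReal J := by
        rw [← ofReal_integral_eq_lintegral_ofReal (jI_int.const_mul _) (Eventually.of_forall fun v => by
          have := jI_nn v
          positivity), integral_const_mul]
    _ = _ := by
        rw [← ENNReal.ofReal_mul (by positivity)]
        congr 1
        ring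

end Pool.Agent.H87.DW
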