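import Pool.Agent.H87.DW.Conv

/-!
# The upper cancellation inequality
-/

set_option autoImplicit false

open MeasureTheory Set Filter Topology Pool.Agent.H25.Kin
open Pool.Agent.H82.BK (bt bcut Kn hh co BB dir)
open Pool.Agent.H15.AV (kt vp wp kt_meas measurable_vp measurable_wp kt_nonneg int_los int_src BTst)
open scoped ENNReal

namespace Pool.Agent.H87.DW

variable {d : ℕ} {s γ C Ca ε : ℝ} {b : ℝ → ℝ}

/-- `u^(-q) ≤ 1 + 2^q q (1-u)` on `[1/2,1]`, `q ≥ 1` -/
private lemma cu_pow {q u : ℝ} (hq : 1 ≤ q) (hu : 1 / 2 ≤ u) (hu1 : u ≤ 1) :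
    u ^ (-q) ≤ 1 + 2 ^ q * q * (1 - u) := by
  have hu0 : 0 < u := by linarith
  have h1 : 1 + q * (u - 1) ≤ u ^ q := by
    have := one_add_mul_self_le_rpow_one_add (s := u - 1) (by linarith) hq
    rwa [add_sub_cancel] at this
  have h2 : u ^ (-q) ≤ 2 ^ q := by
    calc u ^ (-q) ≤ (1 / 2 : ℝ) ^ (-q) := Real.rpow_le_rpow_of_nonpos (by norm_num) hu (by linarith)
      _ = 2 ^ q := by
          rw [one_div, Real.inv_rpow (by norm_num), Real.rpow_neg (by norm_num), inv_inv]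
  have hp := Real.rpow_pos_of_pos hu0 (-q)
  have e : u ^ (-q) = 1 + u ^ (-q) * (1 - u ^ q) := by
    rw [mul_sub, ← Real.rpow_add hu0]
    simp
  rw [e]
  have h3 : 1 - u ^ q ≤ q * (1 - u) := by linarith
  have h4 : 0 ≤ q * (1 - u) := mul_nonneg (by linarith) (by linarith)
  have h5 : u ^ (-q) * (1 - u ^ q) ≤ 2 ^ q * (q * (1 - u)) :=
    (mul_le_mul_of_nonneg_left h3 hp.le).trans (mul_le_mul_of_nonneg_right h2 h4)
  linarith

private lemma cu_meas (hb : Measurable b) (m : Vec d) {F : ℝ → ℝ} (hF : Measurable F) :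
    Measurable fun σ : Vec d => ENNReal.ofReal (Kn d γ (bt b ε) (co m σ) * F (co m σ)) := by
  have h1 : Measurable fun σ : Vec d => co m σ := by
    unfold co
    exact (dot_cont m).measurable.div_const _
  have h2 : Measurable fun c : ℝ => Kn d γ (bt b ε) c := by
    unfold Kn
    exact ((measurable_id.pow_const _).const_mul _).mul
      ((Pool.Agent.H82.BK.measurable_bt hb ε).comp (((measurable_id.pow_const 2).const_mul 2).sub_const 1))
  exact ((h2.comp h1).mul (hF.comp h1)).ennreal_ofReal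

theorem canc_ang (H : Hyp d γ s b C Ca) (hγ : 0 ≤ γ) : ∃ K : ℝ, 0 ≤ K ∧ ∀ ε : ℝ, 0 < ε →
    ∀ m : Vec d, m ≠ 0 → ∫⁻ σ in {σ : Vec d | 0 < dot m σ}, ENNReal.ofReal (Kn d γ (bt b ε) (co m σ)) ∂(surf d) ≤
      BB b ε (dir m) + ENNReal.ofReal K := by
  obtain ⟨C', hC', hang⟩ := angular (d := d) H.hd1 H.hs H.hs1
  have hC0 := H.bd.1
  have hd2 : (2 : ℝ) ≤ d := by exact_mod_cast H.hd
  set q : ℝ := ((d : ℝ) + γ) / 2 with hq
  have hq1 : 1 ≤ q := by rw [hq]; linarith
  have h2q : (0 : ℝ) < 2 ^ q := Real.rpow_pos_of_pos (by norm_num) _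
  set M : ℝ := 2 ^ q * q / 2 with hM
  have hM0 : 0 ≤ M := by positivity
  refine ⟨M * (2 * C) * C', by positivity, fun ε hε m hm => ?_⟩
  have hset : {σ : Vec d | 0 < dot m σ} = {σ : Vec d | 0 < dot (dir m) σ} := by
    ext σ
    show 0 < dot m σ ↔ 0 < dot (dir m) σ
    rw [← Pool.Agent.H82.BK.co_eq]
    unfold co
    exact ⟨fun h => div_pos h (len_pos hm), fun h => by
      have := mul_pos h (len_pos hm)
      rwa [div_mul_cancel₀ _ (len_pos hm).ne'] at this⟩
  -- the second function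
  set β₂ : ℝ → ℝ≥0∞ := fun x => ENNReal.ofReal (bt b ε x * (M * (1 - x))) with hβ₂
  have hβm : Measurable β₂ :=
    ((Pool.Agent.H82.BK.measurable_bt H.bm ε).mul ((measurable_const.sub measurable_id).const_mul M)).ennreal_ofReal
  have hβ1 : β₂ (-1) = 0 := by
    simp only [hβ₂]
    rw [Pool.Agent.H82.BK.bt_neg (by norm_num), zero_mul, ENNReal.ofReal_zero]
  have hHA := Pool.Agent.H82.BK.half_angle H.hd (Pool.Agent.H82.BK.nsq_dir hm) hβm hβ1
  have h1 : ∫⁻ σ in {σ : Vec d | 0 < dot m σ}, ENNReal.ofReal (Kn d γ (bt b ε) (co m σ)) ∂(surf d) ≤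
      (∫⁻ σ in {σ : Vec d | 0 < dot m σ}, ENNReal.ofReal
        (Kn d γ (bt b ε) (co m σ) * co m σ ^ ((d : ℝ) + γ)) ∂(surf d)) +
      ∫⁻ σ in {σ : Vec d | 0 < dot m σ},
        ENNReal.ofReal (2 ^ (d - 1) * dot (dir m) σ ^ (d - 2)) * β₂ (2 * dot (dir m) σ ^ 2 - 1) ∂(surf d) := by
    have hcm : Measurable fun σ : Vec d => ENNReal.ofReal
        (Kn d γ (bt b ε) (co m σ) * co m σ ^ ((d : ℝ) + γ)) :=
      cu_meas H.bm m (F := fun c : ℝ => c ^ ((d : ℝ) + γ)) (measurable_id.pow_const _)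
    rw [← lintegral_add_left hcm]
    refine lintegral_mono_ae ?_
    filter_upwards [ae_restrict_mem (Pool.Agent.H82.BK.measurableSet_half m),
      ae_restrict_of_ae surf_ae] with σ h1 hσ
    have h2 : 0 < co m σ := by
      unfold co
      exact div_pos h1 (len_pos hm)
    have h3 : co m σ ≤ 1 := by
      rw [Pool.Agent.H82.BK.co_eq]
      exact (abs_le.1 (dot_le_one (Pool.Agent.H82.BK.nsq_dir hm) hσ)).2
    rw [← Pool.Agent.H82.BK.co_eq]
    set c := co m σ with hc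
    have hbt : 0 ≤ bt b ε (2 * c ^ 2 - 1) :=
      Pool.Agent.H82.BK.bt_nonneg (b := b) H.bd hε (x := 2 * c ^ 2 - 1) (by nlinarith) (by nlinarith)
    have hpc := Real.rpow_pos_of_pos h2 (-2 - γ)
    have hpd := Real.rpow_pos_of_pos h2 ((d : ℝ) + γ)
    have hKn : 0 ≤ Kn d γ (bt b ε) c := by
      unfold Kn
      positivity
    simp only [hβ₂]
    rw [← ENNReal.ofReal_mul (by positivity), ← ENNReal.ofReal_add (mul_nonneg hKn hpd.le) (by
      have : 0 ≤ 1 - (2 * c ^ 2 - 1) := by nlinarith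
      positivity)]
    refine ENNReal.ofReal_le_ofReal ?_
    rcases lt_or_ge (2 * c ^ 2 - 1) 0 with hneg | hpos
    · have e0 : Kn d γ (bt b ε) c = 0 := by
        unfold Kn
        rw [Pool.Agent.H82.BK.bt_neg hneg, mul_zero]
      rw [e0, Pool.Agent.H82.BK.bt_neg hneg]
      simp
    have e1 : Kn d γ (bt b ε) c * c ^ ((d : ℝ) + γ) = 2 ^ (d - 1) * c ^ (d - 2) * bt b ε (2 * c ^ 2 - 1) := by
      unfold Kn
      have : c ^ (-2 - γ) * c ^ ((d : ℝ) + γ) = c ^ (d - 2) := by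
        rw [← Real.rpow_natCast c (d - 2), ← Real.rpow_add h2]
        congr 1
        rw [Nat.cast_sub H.hd]
        push_cast
        ring
      rw [← this]
      ring
    have e2 : Kn d γ (bt b ε) c = (Kn d γ (bt b ε) c * c ^ ((d : ℝ) + γ)) * (c ^ 2) ^ (-q) := by
      rw [mul_assoc]
      have : c ^ ((d : ℝ) + γ) * (c ^ 2) ^ (-q) = 1 := by
        rw [← Real.rpow_natCast c 2, ← Real.rpow_mul h2.le, ← Real.rpow_add h2]
        have : (d : ℝ) + γ + ((2 : ℕ) : ℝ) * -q = 0 := by rw [hq]; push_cast; ring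
        rw [this, Real.rpow_zero]
      rw [this, mul_one]
    have h4 := cu_pow hq1 (u := c ^ 2) (by linarith) (pow_le_one₀ h2.le h3)
    have h5 : 0 ≤ Kn d γ (bt b ε) c * c ^ ((d : ℝ) + γ) := mul_nonneg hKn hpd.le
    calc Kn d γ (bt b ε) c = (Kn d γ (bt b ε) c * c ^ ((d : ℝ) + γ)) * (c ^ 2) ^ (-q) := e2
      _ ≤ (Kn d γ (bt b ε) c * c ^ ((d : ℝ) + γ)) * (1 + 2 ^ q * q * (1 - c ^ 2)) :=
          mul_le_mul_of_nonneg_left h4 h5
      _ = Kn d γ (bt b ε) c * c ^ ((d : ℝ) + γ) +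
            (Kn d γ (bt b ε) c * c ^ ((d : ℝ) + γ)) * (2 ^ q * q * (1 - c ^ 2)) := by ring
      _ = _ := by
          rw [e1, hM]
          ring
  refine h1.trans (add_le_add (le_of_eq (Pool.Agent.H82.BK.BB_eq H.hd γ H.bm ε hm)) ?_)
  rw [hset, hHA]
  have h6 : ∀ᵐ σ ∂(surf d), β₂ (dot (dir m) σ) ≤ ENNReal.ofReal (M * (2 * C)) *
      ENNReal.ofReal ((1 - dot (dir m) σ) ^ (-(((d : ℝ) - 1) / 2 + s)) * min ((1 : ℝ) ^ 2 * (1 - dot (dir m) σ)) 1) := by
    filter_upwards [surf_ae] with σ hσ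
    have hx1 : dot (dir m) σ ≤ 1 := (abs_le.1 (dot_le_one (Pool.Agent.H82.BK.nsq_dir hm) hσ)).2
    simp only [hβ₂]
    set x := dot (dir m) σ with hx
    rw [← ENNReal.ofReal_mul (by positivity)]
    refine ENNReal.ofReal_le_ofReal ?_
    have hp : 0 ≤ (1 - x) ^ (-(((d : ℝ) - 1) / 2 + s)) := Real.rpow_nonneg (by linarith) _
    have hmn : 0 ≤ min ((1 : ℝ) ^ 2 * (1 - x)) 1 := le_min (by linarith) zero_le_one
    rcases lt_or_ge x 0 with h | h
    · rw [Pool.Agent.H82.BK.bt_neg h, zero_mul]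
      positivity
    rcases eq_or_lt_of_le hx1 with h' | h'
    · rw [h']
      have : (1 : ℝ) - 1 = 0 := sub_self 1
      rw [this, mul_zero, mul_zero, mul_zero, min_eq_left zero_le_one, mul_zero, mul_zero]
    · have h7 := Pool.Agent.H82.BK.bt_le (ε := ε) H.bd H.β0 h h'
      rw [one_pow, one_mul, min_eq_left (by linarith : 1 - x ≤ 1)]
      calc bt b ε x * (M * (1 - x)) ≤ (2 * C * (1 - x) ^ (-(((d : ℝ) - 1) / 2 + s))) * (M * (1 - x)) :=
            mul_le_mul_of_nonneg_right h7 (mul_nonneg hM0 (by linarith))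
        _ = _ := by ring
  refine (lintegral_mono_ae h6).trans ?_
  rw [lintegral_const_mul' _ _ ENNReal.ofReal_ne_top]
  refine (mul_le_mul_right (hang (dir m) (Pool.Agent.H82.BK.nsq_dir hm) 1 one_pos) _).trans ?_
  rw [Real.one_rpow, mul_one, ← ENNReal.ofReal_mul (by positivity)]

private theorem cu_v (H : Hyp d γ s b C Ca) {K : ℝ}
    (hK : ∀ m : Vec d, m ≠ 0 → ∫⁻ σ in {σ : Vec d | 0 < dot m σ}, ENNReal.ofReal (Kn d γ (bt b ε) (co m σ)) ∂(surf d) ≤
      BB b ε (dir m) + ENNReal.ofReal K) {G : Vec d → ℝ≥0∞} (hG : Measurable G) (v : Vec d) :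
    ∫⁻ w, ∫⁻ σ, ENNReal.ofReal (len (v - w) ^ γ * bt b ε (cosTh v w σ)) * G (post' v w σ) ∂(surf d) ≤
      (∫⁻ w, ∫⁻ σ, ENNReal.ofReal (len (v - w) ^ γ * bt b ε (cosTh v w σ)) * G w ∂(surf d)) +
        ENNReal.ofReal K * ∫⁻ w, ENNReal.ofReal (len (v - w) ^ γ) * G w := by
  have hbt := Pool.Agent.H82.BK.measurable_bt H.bm ε
  have hcv := Pool.Agent.H82.BK.coll_cv H.hd γ hbt (Φ := fun a _ => G a)
    (hG.comp measurable_fst) v
  rw [hcv]
  rw [← lintegral_sub_left_eq_self (fun w => ∫⁻ σ, ENNReal.ofReal (len (v - w) ^ γ * bt b ε (cosTh v w σ)) * G w ∂(surf d)) v,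
    ← lintegral_sub_left_eq_self (fun w => ENNReal.ofReal (len (v - w) ^ γ) * G w) v,
    ← lintegral_const_mul' _ _ ENNReal.ofReal_ne_top]
  have hm2 : Measurable fun m : Vec d => ENNReal.ofReal K * (ENNReal.ofReal (len (v - (v - m)) ^ γ) * G (v - m)) := by
    have m1 : Measurable fun m : Vec d => len (v - (v - m)) := by
      have : Continuous fun m : Vec d => len (v - (v - m)) := by
        unfold len
        exact (continuous_sq.comp (continuous_const.sub (continuous_const.sub continuous_id))).sqrt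
      exact this.measurable
    exact ((m1.pow_const γ).ennreal_ofReal.mul (hG.comp (measurable_const.sub measurable_id))).const_mul _
  rw [← lintegral_add_right _ hm2]
  have hne : Nonempty (Fin d) := ⟨⟨0, by have := H.hd1; omega⟩⟩
  have h0 : ∀ᵐ m : Vec d ∂volume, m ∉ ({0} : Set (Vec d)) :=
    (Set.countable_singleton 0).ae_notMem volume
  refine lintegral_mono_ae ?_
  filter_upwards [h0] with m hm0
  have hm : m ≠ 0 := fun h => hm0 h
  have hl := Real.rpow_nonneg (len_nonneg m) γ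
  have e1 : ∀ σ, cosTh v (v - m) σ = dot (dir m) σ := fun σ => by
    rw [cosTh_eq]
    unfold dirk dir
    rw [sub_sub_cancel]
  have hm1 : Measurable fun σ : Vec d => ENNReal.ofReal (bt b ε (dot (dir m) σ)) :=
    (hbt.comp (dot_cont (dir m)).measurable).ennreal_ofReal
  have hkm : Measurable fun σ : Vec d => ENNReal.ofReal (Kn d γ (bt b ε) (co m σ)) := by
    have := cu_meas (γ := γ) (ε := ε) H.bm m (F := fun _ => (1 : ℝ)) measurable_const
    simpa only [mul_one] using this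
  calc ∫⁻ σ in {σ : Vec d | 0 < dot m σ}, ENNReal.ofReal (len m ^ γ * Kn d γ (bt b ε) (co m σ)) * G (v - m) ∂(surf d)
      = (ENNReal.ofReal (len m ^ γ) * G (v - m)) * ∫⁻ σ in {σ : Vec d | 0 < dot m σ},
          ENNReal.ofReal (Kn d γ (bt b ε) (co m σ)) ∂(surf d) := by
        rw [← lintegral_const_mul _ hkm]
        refine lintegral_congr fun σ => ?_
        rw [ENNReal.ofReal_mul hl]
        ring
    _ ≤ (ENNReal.ofReal (len m ^ γ) * G (v - m)) * (BB b ε (dir m) + ENNReal.ofReal K) := by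
        gcongr
        exact hK m hm
    _ = (ENNReal.ofReal (len m ^ γ) * G (v - m)) * BB b ε (dir m) +
          ENNReal.ofReal K * (ENNReal.ofReal (len m ^ γ) * G (v - m)) := by ring
    _ = _ := by
        rw [sub_sub_cancel]
        congr 1
        unfold BB
        rw [← lintegral_const_mul _ hm1]
        refine lintegral_congr fun σ => ?_
        rw [e1, ENNReal.ofReal_mul hl]
        ring

/-- the upper cancellation inequality -/
theorem cancU (H : Hyp d γ s b C Ca) (hγ : 0 ≤ γ) : ∃ K : ℝ, 0 ≤ K ∧ ∀ ε : ℝ, 0 < ε → ∀ g : Vec d → ℝ,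
    RD g → Continuous g → (∀ v, 0 ≤ g v) → ∀ (R L : ℝ) (P : Vec d → ℝ), BTst R L P → (∀ v, 0 ≤ P v) →
    ∀ M : ℝ, 0 ≤ M → ∫⁻ v : Vec d, ∫⁻ w : Vec d, ENNReal.ofReal (len (v - w) ^ γ * (g w * P v)) ≤ ENNReal.ofReal M →
    ∫ p, kt γ b ε p * (g (wp p) * P p.1) ∂(mu3 d) ≤
      (∫ p, kt γ b ε p * (g p.2.1 * P p.1) ∂(mu3 d)) + K * M := by
  obtain ⟨K, hK, hang⟩ := canc_ang H hγ
  refine ⟨K, hK, fun ε hε g hg hgc hg0 R L P hP hP0 M hM0 hM => ?_⟩
  have hgm := hgc.measurable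
  have hIL := int_los H hε hg hgm (F := fun p => P p.1) (hP.meas.comp measurable_fst)
    (A := L) (R := R) (fun p => hP.le _) (fun p hp => hP.supp _ hp)
  have hIR := int_src H hε hg hgm (F := fun p => P p.1) (hP.meas.comp measurable_fst)
    (A := L) (R := R) (fun p => hP.le _) (fun p hp => hP.supp _ hp)
  have nL : 0 ≤ᵐ[mu3 d] fun p => kt γ b ε p * (g p.2.1 * P p.1) := by
    filter_upwards [ae_good H.hd1] with p hp
    exact mul_nonneg (kt_nonneg H hε hp.2) (mul_nonneg (hg0 _) (hP0 _))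
  have nR : 0 ≤ᵐ[mu3 d] fun p => kt γ b ε p * (g (wp p) * P p.1) := by
    filter_upwards [ae_good H.hd1] with p hp
    exact mul_nonneg (kt_nonneg H hε hp.2) (mul_nonneg (hg0 _) (hP0 _))
  have nL' : 0 ≤ ∫ p, kt γ b ε p * (g p.2.1 * P p.1) ∂(mu3 d) := integral_nonneg_of_ae nL
  rw [integral_eq_lintegral_of_nonneg_ae nR hIR.1]
  refine ENNReal.toReal_le_of_le_ofReal (by positivity) ?_
  rw [ENNReal.ofReal_add nL' (by positivity), ofReal_integral_eq_lintegral_ofReal hIL nL,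
    ENNReal.ofReal_mul hK]
  have mL : Measurable fun p : Vec d × Vec d × Vec d =>
      ENNReal.ofReal (kt γ b ε p * (g p.2.1 * P p.1)) :=
    ((kt_meas H.bm).mul ((hgm.comp (measurable_fst.comp measurable_snd)).mul
      (hP.meas.comp measurable_fst))).ennreal_ofReal
  have mR : Measurable fun p : Vec d × Vec d × Vec d =>
      ENNReal.ofReal (kt γ b ε p * (g (wp p) * P p.1)) :=
    ((kt_meas H.bm).mul ((hgm.comp measurable_wp).mul
      (hP.meas.comp measurable_fst))).ennreal_ofReal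
  refine le_trans ?_ (add_le_add le_rfl (mul_le_mul_right hM _))
  rw [lintegral_prod _ mL.aemeasurable, lintegral_prod _ mR.aemeasurable,
    ← lintegral_const_mul' _ _ ENNReal.ofReal_ne_top]
  have mLv : Measurable fun v : Vec d => ∫⁻ y : Vec d × Vec d,
      ENNReal.ofReal (kt γ b ε (v, y) * (g (v, y).2.1 * P (v, y).1)) ∂((volume : Measure (Vec d)).prod (surf d)) :=
    mL.lintegral_prod_right'
  rw [← lintegral_add_left mLv]
  refine lintegral_mono fun v => ?_
  have mL' : Measurable fun y : Vec d × Vec d =>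
      ENNReal.ofReal (kt γ b ε (v, y) * (g (v, y).2.1 * P (v, y).1)) :=
    mL.comp measurable_prodMk_left
  have mR' : Measurable fun y : Vec d × Vec d =>
      ENNReal.ofReal (kt γ b ε (v, y) * (g (wp (v, y)) * P (v, y).1)) :=
    mR.comp measurable_prodMk_left
  rw [lintegral_prod _ mL'.aemeasurable, lintegral_prod _ mR'.aemeasurable]
  have key := cu_v (ε := ε) H (fun m hm => hang ε hε m hm) (G := fun u => ENNReal.ofReal (g u * P v))
    (hgm.mul_const _).ennreal_ofReal v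
  refine (le_of_eq ?_).trans (key.trans (le_of_eq ?_))
  · refine lintegral_congr fun w => lintegral_congr fun σ => ?_
    exact ENNReal.ofReal_mul' (mul_nonneg (hg0 _) (hP0 _))
  · congr 1
    · refine lintegral_congr fun w => lintegral_congr fun σ => ?_
      exact (ENNReal.ofReal_mul' (mul_nonneg (hg0 _) (hP0 _))).symm
    · congr 1
      refine lintegral_congr fun w => ?_
      exact (ENNReal.ofReal_mul' (mul_nonneg (hg0 _) (hP0 _))).symm

end Pool.Agent.H87.DW
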