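import Pool.Agent.H87.DW.Defs
import Pool.Agent.H48.PL.JB

/-!
# Convolution bounds
-/

set_option autoImplicit false

open MeasureTheory Set Filter Topology Pool.Agent.H25.Kin Pool.Agent.H48.PL Pool.Agent.H48.PI Pool.Agent.H48.PW

namespace Pool.Agent.H87.DW

variable {d p : ℕ} {α β : ℝ}

/-- `⟨w⟩^(-(d+3)) |w-v|^β` -/
noncomputable def cvF (β : ℝ) (v w : Vec d) : ℝ := (jb w ^ (d + 3))⁻¹ * len (w - v) ^ β

lemma one_add_norm_le (w : Vec d) : 1 + ‖w‖ ≤ 2 * jb w := by
  have h1 := one_le_jb w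
  have h2 : ‖w‖ ≤ jb w := (pi_norm_le_iff_of_nonneg (jb_pos w).le).2 fun i => by
    rw [Real.norm_eq_abs]; exact (abs_coord_le w i).trans (len_le_jb w)
  linarith

lemma norm_le_len' (w : Vec d) : ‖w‖ ≤ len w :=
  (pi_norm_le_iff_of_nonneg (len_nonneg w)).2 fun i => by
    rw [Real.norm_eq_abs]; exact abs_coord_le w i

private lemma conv_jb (w : Vec d) : (jb w ^ (d + 1))⁻¹ ≤ 2 ^ (d + 1) * wt d w := by
  unfold wt
  have h1 := one_add_norm_le w
  have h0 := jb_pos w
  have hw := w_pos w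
  rw [inv_le_comm₀ (by positivity) (by positivity), mul_inv, inv_inv, ← inv_pow, ← mul_pow]
  refine pow_le_pow_left₀ (by positivity) ?_ _
  linarith

private lemma conv_pt (hβ : -2 < β) (hβ0 : β ≤ 0) (v w : Vec d) :
    cvF β v w ≤ (4 * 2 ^ (d + 5)) * jb v ^ β * (wt d w + kg β (w - v)) := by
  have hv := one_le_jb v
  have hw := one_le_jb w
  have hv0 := jb_pos v
  have hw0 := jb_pos w
  have hp := Real.rpow_pos_of_pos hv0 β
  have hz0 := len_nonneg (w - v)
  have hz := Real.rpow_nonneg hz0 β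
  have hk := kg_nonneg β (w - v)
  have hwt := wt_nonneg (d := d) w
  have hj := conv_jb w
  have h2 : (2 : ℝ) ^ (d + 1) ≤ 2 ^ (d + 5) := pow_le_pow_right₀ (by norm_num) (by omega)
  have h2p : (0 : ℝ) < 2 ^ (d + 5) := by positivity
  have e0 : (jb w ^ (d + 3))⁻¹ = (jb w ^ 2)⁻¹ * (jb w ^ (d + 1))⁻¹ := by
    rw [← mul_inv, ← pow_add]
    congr 2
    omega
  have hj1 : (jb w ^ 2)⁻¹ ≤ 1 := inv_le_one_of_one_le₀ (one_le_pow₀ hw)
  have hj2 : (0 : ℝ) ≤ (jb w ^ 2)⁻¹ := by positivity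
  have hj3 : (0 : ℝ) ≤ (jb w ^ (d + 1))⁻¹ := by positivity
  unfold cvF
  rw [e0]
  rcases le_or_gt (jb v / 2) (len (w - v)) with hA | hB
  · have h3 : len (w - v) ^ β ≤ 4 * jb v ^ β := by
      calc len (w - v) ^ β ≤ (jb v / 2) ^ β := Real.rpow_le_rpow_of_nonpos (by positivity) hA hβ0
        _ = (2 : ℝ) ^ (-β) * jb v ^ β := by
            rw [Real.div_rpow hv0.le (by norm_num), Real.rpow_neg (by norm_num)]
            field_simp
        _ ≤ 4 * jb v ^ β := by
            gcongr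
            calc (2 : ℝ) ^ (-β) ≤ 2 ^ (2 : ℝ) :=
                  Real.rpow_le_rpow_of_exponent_le (by norm_num) (by linarith)
              _ = 4 := by norm_num
    calc (jb w ^ 2)⁻¹ * (jb w ^ (d + 1))⁻¹ * len (w - v) ^ β
        ≤ 1 * (2 ^ (d + 1) * wt d w) * (4 * jb v ^ β) := by gcongr
      _ ≤ 1 * (2 ^ (d + 5) * (wt d w + kg β (w - v))) * (4 * jb v ^ β) := by
          gcongr
          linarith
      _ = _ := by ring
  · have h3 : jb v ≤ 2 * jb w := by
      have := (abs_le.1 (jb_lip w v)).1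
      linarith
    have h4 : (jb w ^ 2)⁻¹ ≤ 4 * jb v ^ β := by
      have h5 : (jb v ^ 2)⁻¹ ≤ jb v ^ β := by
        have e : (jb v ^ 2)⁻¹ = jb v ^ (-2 : ℝ) := by
          rw [Real.rpow_neg hv0.le]; norm_num
        rw [e]
        exact Real.rpow_le_rpow_of_exponent_le hv hβ.le
      have h6 : (jb w ^ 2)⁻¹ ≤ 4 * (jb v ^ 2)⁻¹ := by
        rw [inv_le_comm₀ (by positivity) (by positivity), mul_inv, inv_inv]
        nlinarith
      linarith
    have h7 : (jb w ^ (d + 1))⁻¹ * len (w - v) ^ β ≤ 2 ^ (d + 5) * (wt d w + kg β (w - v)) := by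
      rcases le_or_gt 1 (len (w - v)) with h1 | h1
      · have h8 : len (w - v) ^ β ≤ 1 := Real.rpow_le_one_of_one_le_of_nonpos h1 hβ0
        calc (jb w ^ (d + 1))⁻¹ * len (w - v) ^ β ≤ (2 ^ (d + 1) * wt d w) * 1 := by gcongr
          _ ≤ _ := by
              rw [mul_one]
              have := mul_le_mul_of_nonneg_right h2 hwt
              nlinarith
      · have h8 : (jb w ^ (d + 1))⁻¹ ≤ 1 := inv_le_one_of_one_le₀ (one_le_pow₀ hw)
        have h9 : len (w - v) ^ β ≤ 2 ^ (d + 5) * kg β (w - v) := by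
          unfold kg
          have n1 : 1 + ‖w - v‖ ≤ 2 := by
            have := norm_le_len' (w - v)
            linarith
          have n2 : (1 + ‖w - v‖) ^ (d + 5) ≤ 2 ^ (d + 5) := pow_le_pow_left₀ (w_pos _).le n1 _
          have n3 : 1 ≤ 2 ^ (d + 5) * ((1 + ‖w - v‖) ^ (d + 5))⁻¹ := by
            rw [← div_eq_mul_inv, one_le_div (pow_pos (w_pos _) _)]
            exact n2
          have n4 := sq_nonneg' (w - v)
          have n5 : 0 ≤ 2 ^ (d + 5) * ((1 + ‖w - v‖) ^ (d + 5))⁻¹ := by linarith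
          calc len (w - v) ^ β = len (w - v) ^ β * 1 * 1 := by ring
            _ ≤ len (w - v) ^ β * (1 + nsq (w - v)) * (2 ^ (d + 5) * ((1 + ‖w - v‖) ^ (d + 5))⁻¹) := by
                gcongr
                linarith
            _ = _ := by ring
        calc (jb w ^ (d + 1))⁻¹ * len (w - v) ^ β ≤ 1 * (2 ^ (d + 5) * kg β (w - v)) := by gcongr
          _ ≤ _ := by nlinarith
    calc (jb w ^ 2)⁻¹ * (jb w ^ (d + 1))⁻¹ * len (w - v) ^ β
        = (jb w ^ 2)⁻¹ * ((jb w ^ (d + 1))⁻¹ * len (w - v) ^ β) := by ring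
      _ ≤ (4 * jb v ^ β) * (2 ^ (d + 5) * (wt d w + kg β (w - v))) := by gcongr
      _ = _ := by ring

private lemma conv_nn (v w : Vec d) : 0 ≤ cvF β v w := by
  have := jb_pos w
  have := Real.rpow_nonneg (len_nonneg (w - v)) β
  unfold cvF
  positivity

private lemma conv_meas (v : Vec d) : Measurable (cvF β v) := by
  have m1 : Measurable fun w : Vec d => len (w - v) := by
    have : Continuous fun w : Vec d => len (w - v) := by
      unfold len
      exact (continuous_sq.comp (continuous_id.sub continuous_const)).sqrt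
    exact this.measurable
  unfold cvF
  exact (jb_cont.measurable.pow_const _).inv.mul (m1.pow_const _)

/-- `∫ ⟨w⟩^(-(d+3)) |w-v|^β ≤ K ⟨v⟩^β`, `-2 < β ≤ 0` -/
theorem conv_base (hd : 2 ≤ d) (hβ : -2 < β) (hβ0 : β ≤ 0) : ∃ K : ℝ, 0 ≤ K ∧ ∀ v : Vec d,
    Integrable (cvF β v) ∧ ∫ w, cvF β v w ≤ K * jb v ^ β := by
  have hki := kg_integrable hd hβ (by linarith : β ≤ 2)
  have hk0 : 0 ≤ ∫ z, kg (d := d) β z := integral_nonneg fun z => kg_nonneg β z
  have hw0 : 0 ≤ ∫ z, wt d z := integral_nonneg fun z => wt_nonneg z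
  refine ⟨(4 * 2 ^ (d + 5)) * ((∫ z, wt d z) + ∫ z, kg (d := d) β z), by positivity, fun v => ?_⟩
  have i1 : Integrable fun w : Vec d => (4 * 2 ^ (d + 5)) * jb v ^ β * (wt d w + kg β (w - v)) :=
    (integrable_wt.add (hki.comp_sub_right v)).const_mul _
  have i2 : Integrable (cvF β v) := by
    refine i1.mono' (conv_meas v).aestronglyMeasurable (Eventually.of_forall fun w => ?_)
    rw [Real.norm_eq_abs, abs_of_nonneg (conv_nn v w)]
    exact conv_pt hβ hβ0 v w
  refine ⟨i2, ?_⟩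
  calc ∫ w, cvF β v w ≤ ∫ w, (4 * 2 ^ (d + 5)) * jb v ^ β * (wt d w + kg β (w - v)) :=
        integral_mono i2 i1 fun w => conv_pt hβ hβ0 v w
    _ = _ := by
        rw [integral_const_mul, integral_add integrable_wt (hki.comp_sub_right v),
          integral_sub_right_eq_self (fun z => kg (d := d) β z)]
        ring

/-- `∫ g |w-v|^α ≤ K Λ ⟨v⟩^α` for `-2 < α ≤ 0` -/
theorem conv_s (hd : 2 ≤ d) (hα : -2 < α) (hα0 : α ≤ 0) (hp : d + 5 ≤ p) :
    ∃ K : ℝ, 0 ≤ K ∧ ∀ Λ : ℝ, 0 ≤ Λ → ∀ g : Vec d → ℝ, Measurable g → (∀ v, 0 ≤ g v) →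
      (∀ v, g v * (1 + nsq v) ^ p ≤ Λ) → ∀ v, Integrable (fun w => g w * len (w - v) ^ α) ∧
      ∫ w, g w * len (w - v) ^ α ≤ K * Λ * jb v ^ α := by
  obtain ⟨K, hK, h⟩ := conv_base (d := d) hd hα hα0
  refine ⟨K, hK, fun Λ hΛ g hgm hg0 hgΛ v => ?_⟩
  obtain ⟨hi, hI⟩ := h v
  have hpt : ∀ w, g w * len (w - v) ^ α ≤ Λ * cvF α v w := by
    intro w
    have hw := one_le_jb w
    have hw0 := jb_pos w
    have h1 : jb w ^ (d + 3) ≤ (1 + nsq w) ^ p := by
      rw [← jb_sq, ← pow_mul]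
      exact pow_le_pow_right₀ hw (by omega)
    have h2 : g w ≤ Λ * (jb w ^ (d + 3))⁻¹ := by
      rw [← div_eq_mul_inv, le_div_iff₀ (by positivity)]
      exact (mul_le_mul_of_nonneg_left h1 (hg0 w)).trans (hgΛ w)
    have h3 := Real.rpow_nonneg (len_nonneg (w - v)) α
    unfold cvF
    calc g w * len (w - v) ^ α ≤ (Λ * (jb w ^ (d + 3))⁻¹) * len (w - v) ^ α := by gcongr
      _ = _ := by ring
  have m1 : Measurable fun w : Vec d => len (w - v) := by
    have : Continuous fun w : Vec d => len (w - v) := by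
      unfold len
      exact (continuous_sq.comp (continuous_id.sub continuous_const)).sqrt
    exact this.measurable
  have i1 : Integrable (fun w => g w * len (w - v) ^ α) := by
    refine (hi.const_mul Λ).mono' (hgm.mul (m1.pow_const α)).aestronglyMeasurable
      (Eventually.of_forall fun w => ?_)
    rw [Real.norm_eq_abs, abs_of_nonneg (mul_nonneg (hg0 w) (Real.rpow_nonneg (len_nonneg _) _))]
    exact hpt w
  refine ⟨i1, ?_⟩
  calc ∫ w, g w * len (w - v) ^ α ≤ ∫ w, Λ * cvF α v w := integral_mono i1 (hi.const_mul Λ) hpt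
    _ = Λ * ∫ w, cvF α v w := integral_const_mul _ _
    _ ≤ Λ * (K * jb v ^ α) := mul_le_mul_of_nonneg_left hI hΛ
    _ = _ := by ring

end Pool.Agent.H87.DW
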