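import Pool.Agent.H15.AVB.Fold
import Pool.Agent.H15.AVB.Canc
import Pool.Agent.H15.AVB.DecU
import Pool.Agent.H15.G1.L.CuAng

/-!
# Collision integrals against singular test functions, `2s < 1`, bounded densities (MP_c15324_an, dilute planar gas): definitions

Paper: /team-store/h15_dilute_paper.md, section 1 (W1 to W4). `γ = 1 + a`, `-1 ≤ a ≤ 0`, `2 s < 1`; the densities satisfy `g (1+|v|²)^p ≤ Λ`. `CuS α v A` is the class
of test functions with a singularity `|w - v|^α` (`-1 ≤ α ≤ 0`) at `v`; `α = 0` is the class of Lipschitz test functions.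
-/

set_option autoImplicit false

open MeasureTheory Set Filter Topology Pool.Agent.H25.Kin Pool.Agent.H48.PL Pool.Agent.H48.PI Pool.Agent.H48.PW

namespace Pool.Agent.H87.DW

variable {d : ℕ}

/-- test functions with a singularity of order `α ≤ 0` at `v` -/
structure CuS (α : ℝ) (v : Vec d) (A : ℝ) (ψ : Vec d → ℝ) : Prop where
  meas : Measurable ψ
  bd : ∃ B, ∀ w, |ψ w| ≤ B
  h0 : ∀ w, w ≠ v → |ψ w| ≤ A * len (w - v) ^ α
  h2 : ∀ w w', w ≠ v → w' ≠ v → len (w - v) ≤ len (w' - v) →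
    |ψ w - ψ w'| ≤ A * (len (w - v) ^ α * min 1 (len (w - w') * (1 + 1 / len (w - v))))

/-- `φ(y) min(1,|y|/r)²`, `φ(y) = y_e |y|^(a-1)` -/
noncomputable def phiD (e : Fin d) (a r : ℝ) (y : Vec d) : ℝ := min 1 (len y / r) ^ 2 * phi e a y

/-- `min(1,⟨w⟩/⟨v⟩)^4 φ(v-w) min(1,|v-w|/r)²` -/
noncomputable def PhD (e : Fin d) (a r : ℝ) (v w : Vec d) : ℝ :=
  min 1 (jb w / jb v) ^ 4 * phiD e a r (v - w)

end Pool.Agent.H87.DW
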