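import Pool.Agent.H87.DW.Defs
import Pool.Agent.H48.PL.JB
import Pool.Agent.H48.PI.BetA

/-!
# The test functions of the class `CuS`
-/

set_option autoImplicit false

open MeasureTheory Set Filter Topology Pool.Agent.H25.Kin Pool.Agent.H48.PL Pool.Agent.H48.PI Pool.Agent.H48.PW

namespace Pool.Agent.H87.DW

variable {d : ℕ} {a α : ℝ}

theorem CuS.abs {v : Vec d} {A : ℝ} {ψ : Vec d → ℝ} (h : CuS α v A ψ) : CuS α v A fun w => |ψ w| := by
  refine ⟨continuous_abs.measurable.comp h.meas, ?_, fun w hw => ?_, fun w w' hw hw' hl => ?_⟩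
  · obtain ⟨B, hB⟩ := h.bd
    exact ⟨B, fun w => by rw [abs_abs]; exact hB w⟩
  · rw [abs_abs]; exact h.h0 w hw
  · exact (abs_abs_sub_abs_le _ _).trans (h.h2 w w' hw hw' hl)

private lemma wt_pos {x y : Vec d} (h : x ≠ y) : 0 < len (x - y) := len_pos (sub_ne_zero.2 h)

private lemma wt_anti {α : ℝ} (hα0 : α ≤ 0) {t t' : ℝ} (ht : 0 < t) (h : t ≤ t') : t' ^ α ≤ t ^ α :=
  Real.rpow_le_rpow_of_nonpos ht h hα0

/-- a bounded Lipschitz factor -/
theorem CuS.lip {v : Vec d} {A L : ℝ} {ψ η : Vec d → ℝ} (hα0 : α ≤ 0) (hA : 0 ≤ A) (h : CuS α v A ψ)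
    (hL : 2 ≤ L) (hm : Measurable η) (h1 : ∀ w, |η w| ≤ 1) (hl : ∀ w w', |η w - η w'| ≤ L * len (w - w')) :
    CuS α v (A * (1 + L)) fun w => η w * ψ w := by
  refine ⟨hm.mul h.meas, ?_, fun w hw => ?_, fun w w' hw hw' hle => ?_⟩
  · obtain ⟨B, hB⟩ := h.bd
    refine ⟨B, fun w => ?_⟩
    rw [abs_mul]
    calc |η w| * |ψ w| ≤ 1 * |ψ w| := mul_le_mul_of_nonneg_right (h1 w) (abs_nonneg _)
      _ = |ψ w| := one_mul _
      _ ≤ B := hB w
  · have hp := Real.rpow_nonneg (len_nonneg (w - v)) α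
    rw [abs_mul]
    calc |η w| * |ψ w| ≤ 1 * (A * len (w - v) ^ α) :=
          mul_le_mul (h1 w) (h.h0 w hw) (abs_nonneg _) zero_le_one
      _ = A * 1 * len (w - v) ^ α := by ring
      _ ≤ A * (1 + L) * len (w - v) ^ α := by gcongr; linarith
  · have ht := wt_pos hw
    have ht' := wt_pos hw'
    set t := len (w - v) with htd
    set δ := len (w - w') with hδ
    have hδ0 : 0 ≤ δ := len_nonneg _
    have hp := Real.rpow_nonneg ht.le α
    set m : ℝ := min 1 (δ * (1 + 1 / t)) with hmd
    have hm0 : 0 ≤ m := le_min zero_le_one (by positivity)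
    have q1 := h.h2 w w' hw hw' hle
    have q2 : |ψ w'| ≤ A * t ^ α := (h.h0 w' hw').trans
      (mul_le_mul_of_nonneg_left (wt_anti hα0 ht hle) hA)
    have q3 : |η w - η w'| ≤ L * m := by
      rcases le_total 1 (δ * (1 + 1 / t)) with hc | hc
      · rw [hmd, min_eq_left hc]
        have a1 := h1 w
        have a2 := h1 w'
        have a3 := abs_sub (η w) (η w')
        linarith
      · rw [hmd, min_eq_right hc]
        refine (hl w w').trans (mul_le_mul_of_nonneg_left ?_ (by linarith))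
        have a1 : 0 ≤ 1 / t := by positivity
        nlinarith
    have e : η w * ψ w - η w' * ψ w' = η w * (ψ w - ψ w') + (η w - η w') * ψ w' := by ring
    rw [e]
    refine (abs_add_le _ _).trans ?_
    rw [abs_mul, abs_mul]
    calc |η w| * |ψ w - ψ w'| + |η w - η w'| * |ψ w'|
        ≤ 1 * (A * (t ^ α * m)) + (L * m) * (A * t ^ α) := by
          gcongr
          · exact h1 w
      _ = A * (1 + L) * (t ^ α * m) := by ring

/-- Lipschitz test functions -/
theorem cuS_lip {A : ℝ} {ψ : Vec d → ℝ} (hm : Measurable ψ) (h0 : ∀ w, |ψ w| ≤ A)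
    (hl : ∀ w w', |ψ w - ψ w'| ≤ A * len (w - w')) (v : Vec d) : CuS 0 v (2 * A) ψ := by
  have hA : 0 ≤ A := (abs_nonneg _).trans (h0 0)
  refine ⟨hm, ⟨A, h0⟩, fun w _ => ?_, fun w w' hw _ _ => ?_⟩
  · rw [Real.rpow_zero]
    linarith [h0 w]
  · have ht := wt_pos hw
    have hδ0 := len_nonneg (w - w')
    rw [Real.rpow_zero, one_mul]
    rcases le_total 1 (len (w - w') * (1 + 1 / len (w - v))) with hc | hc
    · rw [min_eq_left hc]
      have a1 := h0 w
      have a2 := h0 w'
      have a3 := abs_sub (ψ w) (ψ w')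
      linarith
    · rw [min_eq_right hc]
      refine (hl w w').trans ?_
      have a1 : 0 ≤ 1 / len (w - v) := by positivity
      have a2 : len (w - w') ≤ len (w - w') * (1 + 1 / len (w - v)) := by nlinarith
      nlinarith [mul_nonneg hA hδ0, mul_nonneg hA (sub_nonneg.2 a2)]

private lemma wt_chi_lip {R : ℝ} (hR : 1 ≤ R) (w w' : Vec d) : |chi R w - chi R w'| ≤ 1 / R * len (w - w') := by
  have hR0 : 0 < R := by linarith
  have h1 : |chi R w - chi R w'| ≤ |(2 - jb w / R) - (2 - jb w' / R)| := by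
    unfold chi
    refine (abs_max_sub_max_le_max _ _ _ _).trans ?_
    rw [sub_self, abs_zero]
    refine max_le (abs_nonneg _) ?_
    refine (abs_min_sub_min_le_max _ _ _ _).trans ?_
    rw [sub_self, abs_zero]
    exact max_le (abs_nonneg _) le_rfl
  refine h1.trans ?_
  have e : (2 - jb w / R) - (2 - jb w' / R) = 1 / R * (jb w' - jb w) := by ring
  rw [e, abs_mul, abs_of_pos (by positivity : 0 < 1 / R)]
  refine mul_le_mul_of_nonneg_left ?_ (by positivity)
  rw [abs_sub_comm]
  exact jb_lip w w'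

theorem cuS_chi {R : ℝ} (hR : 1 ≤ R) (v : Vec d) : CuS 0 v 2 (chi R) := by
  have h := cuS_lip (A := 1) (ψ := (chi R : Vec d → ℝ)) (chi_cont R).measurable (fun w => by
    rw [abs_of_nonneg (chi_nonneg R w)]; exact chi_le_one R w) (fun w w' => by
    refine (wt_chi_lip hR w w').trans (mul_le_mul_of_nonneg_right ?_ (len_nonneg _))
    rw [div_le_one (by linarith)]; exact hR) v
  rwa [mul_one] at h

theorem cuS_chiE (e : Fin d) {R : ℝ} (hR : 1 ≤ R) (v : Vec d) :
    CuS 0 v (6 * R) fun w => chi R w * w e := by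
  have hR0 : 0 < R := by linarith
  have hco : ∀ w : Vec d, |chi R w * w e| ≤ 2 * R := by
    intro w
    by_cases h : 2 * R ≤ jb w
    · rw [chi_eq_zero hR h, zero_mul, abs_zero]; linarith
    · rw [abs_mul, abs_of_nonneg (chi_nonneg R w)]
      have a1 : |w e| ≤ 2 * R := ((abs_coord_le w e).trans (len_le_jb w)).trans (not_le.1 h).le
      calc chi R w * |w e| ≤ 1 * (2 * R) := mul_le_mul (chi_le_one R w) a1 (abs_nonneg _) zero_le_one
        _ = 2 * R := one_mul _
  have key : ∀ w w' : Vec d, jb w' ≤ 2 * R → |chi R w * w e - chi R w' * w' e| ≤ 3 * len (w - w') := by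
    intro w w' h
    have e1 : chi R w * w e - chi R w' * w' e = chi R w * (w e - w' e) + (chi R w - chi R w') * w' e := by
      ring
    have a1 : |w' e| ≤ 2 * R := ((abs_coord_le w' e).trans (len_le_jb w')).trans h
    have a2 : |w e - w' e| ≤ len (w - w') := by
      have := abs_coord_le (w - w') e
      simpa using this
    have a3 := wt_chi_lip hR w w'
    have hl := len_nonneg (w - w')
    rw [e1]
    refine (abs_add_le _ _).trans ?_
    rw [abs_mul, abs_mul, abs_of_nonneg (chi_nonneg R w)]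
    calc chi R w * |w e - w' e| + |chi R w - chi R w'| * |w' e|
        ≤ 1 * len (w - w') + (1 / R * len (w - w')) * (2 * R) := by
          gcongr
          exact chi_le_one R w
      _ = 3 * len (w - w') := by field_simp; ring
  have h := cuS_lip (A := 3 * R) (ψ := fun w : Vec d => chi R w * w e)
    ((chi_cont R).measurable.mul (measurable_pi_apply e)) (fun w => (hco w).trans (by linarith))
    (fun w w' => by
      have hl := len_nonneg (w - w')
      have h3 : 3 * len (w - w') ≤ 3 * R * len (w - w') := by nlinarith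
      refine le_trans ?_ h3
      rcases le_total (jb w') (2 * R) with h | h
      · exact key w w' h
      · rcases le_total (jb w) (2 * R) with h' | h'
        · have := key w' w h'
          rw [abs_sub_comm, len_comm] at this
          exact this
        · rw [chi_eq_zero hR h, chi_eq_zero hR h']
          simp only [zero_mul, sub_self, abs_zero]
          positivity) v
  have e2 : 2 * (3 * R) = 6 * R := by ring
  rwa [e2] at h

private lemma wt_phi_abs {e : Fin d} {y : Vec d} (hy : y ≠ 0) : |phi e a y| ≤ len y ^ a := by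
  have h := len_pos hy
  unfold phi
  rw [abs_mul, abs_of_nonneg (Real.rpow_nonneg h.le _)]
  calc |y e| * len y ^ (a - 1) ≤ len y * len y ^ (a - 1) :=
        mul_le_mul_of_nonneg_right (abs_coord_le y e) (Real.rpow_nonneg h.le _)
    _ = len y ^ a := by
        rw [mul_comm, ← Real.rpow_add_one h.ne', sub_add_cancel]

private lemma wt_cut {r : ℝ} (hr : 0 < r) (y : Vec d) : 0 ≤ min 1 (len y / r) ∧ min 1 (len y / r) ≤ 1 :=
  ⟨le_min zero_le_one (div_nonneg (len_nonneg _) hr.le), min_le_left _ _⟩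

private lemma wt_phiD_abs {e : Fin d} {r : ℝ} (hr : 0 < r) {y : Vec d} (hy : y ≠ 0) :
    |phiD e a r y| ≤ len y ^ a := by
  obtain ⟨c0, c1⟩ := wt_cut hr y
  unfold phiD
  rw [abs_mul, abs_of_nonneg (by positivity)]
  calc min 1 (len y / r) ^ 2 * |phi e a y| ≤ 1 * len y ^ a :=
        mul_le_mul (pow_le_one₀ c0 c1) (wt_phi_abs hy) (abs_nonneg _) zero_le_one
    _ = _ := one_mul _

private lemma wt_phiD_bd {e : Fin d} {r : ℝ} (hr : 0 < r) (ha : -1 ≤ a) (ha0 : a ≤ 0) (y : Vec d) :
    |phiD e a r y| ≤ r ^ a := by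
  by_cases hy : y = 0
  · subst hy
    unfold phiD
    rw [len_zero, zero_div, min_eq_right zero_le_one]
    simp only [ne_eq, OfNat.ofNat_ne_zero, not_false_eq_true, zero_pow, zero_mul, abs_zero]
    positivity
  have h := len_pos hy
  rcases le_total r (len y) with hc | hc
  · exact (wt_phiD_abs hr hy).trans (wt_anti ha0 hr hc)
  · obtain ⟨c0, c1⟩ := wt_cut hr y
    unfold phiD
    rw [abs_mul, abs_of_nonneg (by positivity)]
    have h1 : min 1 (len y / r) = len y / r := min_eq_right ((div_le_one hr).2 hc)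
    rw [h1]
    have h2 : len y / r ≤ 1 := (div_le_one hr).2 hc
    have h3 : (len y / r) ^ 2 ≤ (len y / r) ^ (-a) := by
      rw [← Real.rpow_natCast]
      exact Real.rpow_le_rpow_of_exponent_ge (by positivity) h2 (by push_cast; linarith)
    calc (len y / r) ^ 2 * |phi e a y| ≤ (len y / r) ^ (-a) * len y ^ a :=
          mul_le_mul h3 (wt_phi_abs hy) (abs_nonneg _) (by positivity)
      _ = r ^ a := by
          rw [Real.rpow_neg (by positivity), Real.div_rpow h.le hr.le]
          have := (Real.rpow_pos_of_pos h a).ne'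
          have := (Real.rpow_pos_of_pos hr a).ne'
          field_simp

private lemma wt_phi_inc {e : Fin d} (ha : -1 ≤ a) (ha0 : a ≤ 0) {y y' : Vec d} (hy : y ≠ 0) (hy' : y' ≠ 0)
    (hle : len y ≤ len y') (hδ : len (y - y') ≤ len y) :
    |phi e a y - phi e a y'| ≤ 4 * (len y ^ a * (len (y - y') / len y)) := by
  have ht := len_pos hy
  have ht' := len_pos hy'
  set t := len y with htd
  set t' := len y' with htd'
  set δ := len (y - y') with hδd
  have hδ0 : 0 ≤ δ := len_nonneg _
  have hd : t' - t ≤ δ := by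
    have := len_le_add_sub y' y
    rw [len_comm y' y] at this
    linarith
  have e1 : phi e a y - phi e a y' = (y e - y' e) * t ^ (a - 1) + y' e * (t ^ (a - 1) - t' ^ (a - 1)) := by
    unfold phi; ring
  have hp1 := Real.rpow_pos_of_pos ht (a - 1)
  have hp1' := Real.rpow_pos_of_pos ht' (a - 1)
  have hpa := Real.rpow_pos_of_pos ht a
  have ea : t ^ (a - 1) = t ^ a / t := Real.rpow_sub_one ht.ne' a
  have a2 : |y e - y' e| ≤ δ := by
    have := abs_coord_le (y - y') e
    simpa using this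
  -- the power
  have key : t ^ (a - 1) - t' ^ (a - 1) ≤ t' ^ (a - 1) * (3 * (δ / t)) := by
    have hx : 1 ≤ t' / t := (one_le_div ht).2 hle
    have h1 : t ^ (a - 1) = t' ^ (a - 1) * (t' / t) ^ (1 - a) := by
      rw [Real.div_rpow ht'.le ht.le, show (1 - a) = -(a - 1) by ring, Real.rpow_neg ht'.le,
        Real.rpow_neg ht.le]
      field_simp
    have h2 : (t' / t) ^ (1 - a) ≤ (t' / t) ^ (2 : ℕ) := by
      rw [← Real.rpow_natCast]
      exact Real.rpow_le_rpow_of_exponent_le hx (by push_cast; linarith)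
    have h3 : (t' / t) ^ (2 : ℕ) - 1 ≤ 3 * (δ / t) := by
      have e3 : (t' / t) ^ 2 - 1 = (t' - t) / t * (t' / t + 1) := by field_simp; ring
      rw [e3]
      have h4 : t' / t + 1 ≤ 3 := by
        have : t' / t ≤ 2 := by
          rw [div_le_iff₀ ht]; linarith
        linarith
      have h5 : (t' - t) / t ≤ δ / t := div_le_div_of_nonneg_right hd ht.le
      have h6 : 0 ≤ (t' - t) / t := div_nonneg (by linarith) ht.le
      calc (t' - t) / t * (t' / t + 1) ≤ δ / t * 3 :=
            mul_le_mul h5 h4 (by positivity) (by positivity)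
        _ = 3 * (δ / t) := by ring
    rw [h1]
    have h7 : t' ^ (a - 1) * (t' / t) ^ (1 - a) - t' ^ (a - 1) = t' ^ (a - 1) * ((t' / t) ^ (1 - a) - 1) := by
      ring
    rw [h7]
    exact mul_le_mul_of_nonneg_left (by linarith) hp1'.le
  have h0 : 0 ≤ t ^ (a - 1) - t' ^ (a - 1) := by
    have := wt_anti (α := a - 1) (by linarith) ht hle
    linarith
  rw [e1]
  refine (abs_add_le _ _).trans ?_
  rw [abs_mul, abs_mul, abs_of_pos hp1, abs_of_nonneg h0]
  have h8 : t' * t' ^ (a - 1) = t' ^ a := by rw [mul_comm, ← Real.rpow_add_one ht'.ne', sub_add_cancel]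
  have h9 : t' ^ a ≤ t ^ a := wt_anti ha0 ht hle
  calc |y e - y' e| * t ^ (a - 1) + |y' e| * (t ^ (a - 1) - t' ^ (a - 1))
      ≤ δ * t ^ (a - 1) + t' * (t' ^ (a - 1) * (3 * (δ / t))) := by
        gcongr
        exact abs_coord_le y' e
    _ = δ * (t ^ a / t) + t' ^ a * (3 * (δ / t)) := by rw [← h8, ea]; ring
    _ ≤ δ * (t ^ a / t) + t ^ a * (3 * (δ / t)) := by gcongr
    _ = 4 * (t ^ a * (δ / t)) := by ring

private lemma wt_phiD_inc {e : Fin d} {r : ℝ} (hr : 0 < r) (ha : -1 ≤ a) (ha0 : a ≤ 0) {y y' : Vec d}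
    (hy : y ≠ 0) (hy' : y' ≠ 0) (hle : len y ≤ len y') :
    |phiD e a r y - phiD e a r y'| ≤ 6 * (len y ^ a * min 1 (len (y - y') / len y)) := by
  have ht := len_pos hy
  have ht' := len_pos hy'
  have hpa := Real.rpow_pos_of_pos ht a
  have b1 := wt_phiD_abs (e := e) (a := a) hr hy
  have b2 : |phiD e a r y'| ≤ len y ^ a := (wt_phiD_abs hr hy').trans (wt_anti ha0 ht hle)
  rcases le_total (len (y - y')) (len y) with hc | hc
  swap
  · rw [min_eq_left ((one_le_div ht).2 hc), mul_one]
    have := abs_sub (phiD e a r y) (phiD e a r y')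
    linarith
  rw [min_eq_right ((div_le_one ht).2 hc)]
  have h1 := wt_phi_inc (e := e) ha ha0 hy hy' hle hc
  obtain ⟨c0, c1⟩ := wt_cut hr y
  obtain ⟨d0, d1⟩ := wt_cut hr y'
  set m := min 1 (len y / r) with hm
  set m' := min 1 (len y' / r) with hm'
  have hδ0 : 0 ≤ len (y - y') / len y := div_nonneg (len_nonneg _) ht.le
  have hd : len y' - len y ≤ len (y - y') := by
    have := len_le_add_sub y' y
    rw [len_comm y' y] at this
    linarith
  have h3 : m ≤ m' := min_le_min le_rfl (div_le_div_of_nonneg_right hle hr.le)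
  have h2 : m' - m ≤ len (y - y') / len y := by
    rcases le_total r (len y) with hry | hry
    · have e1 : m = 1 := min_eq_left ((one_le_div hr).2 hry)
      rw [e1]; linarith
    · have e1 : m = len y / r := min_eq_right ((div_le_one hr).2 hry)
      have e2 : m' ≤ len y' / r := min_le_right _ _
      calc m' - m ≤ len y' / r - len y / r := by rw [e1]; linarith
        _ = (len y' - len y) / r := by ring
        _ ≤ (len y' - len y) / len y := by
            apply div_le_div_of_nonneg_left (by linarith) ht hry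
        _ ≤ _ := div_le_div_of_nonneg_right hd ht.le
  have e4 : phiD e a r y - phiD e a r y' = m ^ 2 * (phi e a y - phi e a y') - (m' ^ 2 - m ^ 2) * phi e a y' := by
    unfold phiD; ring
  rw [e4]
  refine (abs_sub _ _).trans ?_
  rw [abs_mul, abs_mul, abs_of_nonneg (by positivity : 0 ≤ m ^ 2)]
  have h5 : |m' ^ 2 - m ^ 2| ≤ 2 * (len (y - y') / len y) := by
    have e5 : m' ^ 2 - m ^ 2 = (m' - m) * (m' + m) := by ring
    rw [e5, abs_of_nonneg (mul_nonneg (by linarith) (by linarith))]
    nlinarith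
  have h6 : |phi e a y'| ≤ len y ^ a := (wt_phi_abs hy').trans (wt_anti ha0 ht hle)
  calc m ^ 2 * |phi e a y - phi e a y'| + |m' ^ 2 - m ^ 2| * |phi e a y'|
      ≤ 1 * (4 * (len y ^ a * (len (y - y') / len y))) + 2 * (len (y - y') / len y) * len y ^ a := by
        gcongr
        exact pow_le_one₀ c0 c1
    _ = 6 * (len y ^ a * (len (y - y') / len y)) := by ring

private lemma wt_meas_phiD (e : Fin d) (a r : ℝ) (v : Vec d) : Measurable fun w : Vec d => phiD e a r (v - w) := by
  have m1 : Measurable fun w : Vec d => len (v - w) := by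
    have : Continuous fun w : Vec d => len (v - w) := by
      unfold len
      exact (continuous_sq.comp (continuous_const.sub continuous_id)).sqrt
    exact this.measurable
  have m2 : Measurable fun w : Vec d => (v - w) e := (measurable_pi_apply e).comp (measurable_const.sub measurable_id)
  unfold phiD phi
  exact ((measurable_const.min (m1.div_const _)).pow_const 2).mul (m2.mul (m1.pow_const _))

private lemma wt_len (v w w' : Vec d) : len (v - w - (v - w')) = len (w - w') := by
  have : v - w - (v - w') = w' - w := by abel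
  rw [this, len_comm]

private lemma cuS_phiD (e : Fin d) (ha : -1 ≤ a) (ha0 : a ≤ 0) {r : ℝ} (hr : 0 < r) (v : Vec d) :
    CuS a v 6 fun w => phiD e a r (v - w) := by
  refine ⟨wt_meas_phiD e a r v, ⟨r ^ a, fun w => wt_phiD_bd hr ha ha0 _⟩, fun w hw => ?_,
    fun w w' hw hw' hle => ?_⟩
  · have h1 := wt_phiD_abs (e := e) (a := a) hr (sub_ne_zero.2 hw.symm)
    rw [len_comm] at h1
    have h2 := Real.rpow_nonneg (len_nonneg (w - v)) a
    linarith
  · have ht := wt_pos hw
    rw [len_comm w v, len_comm w' v] at hle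
    have h1 := wt_phiD_inc (e := e) hr ha ha0 (sub_ne_zero.2 hw.symm) (sub_ne_zero.2 hw'.symm) hle
    rw [wt_len, len_comm v w] at h1
    refine h1.trans ?_
    have hδ0 := len_nonneg (w - w')
    have hp := Real.rpow_nonneg ht.le a
    gcongr
    rw [mul_add, mul_one, mul_one_div]
    linarith

private lemma wt_Om_lip (v w w' : Vec d) :
    |min 1 (jb w / jb v) ^ 4 - min 1 (jb w' / jb v) ^ 4| ≤ 4 * len (w - w') := by
  have hv := one_le_jb v
  have hv0 := jb_pos v
  set x := min 1 (jb w / jb v) with hx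
  set y := min 1 (jb w' / jb v) with hy
  have x0 : 0 ≤ x := le_min zero_le_one (div_nonneg (jb_pos w).le hv0.le)
  have x1 : x ≤ 1 := min_le_left _ _
  have y0 : 0 ≤ y := le_min zero_le_one (div_nonneg (jb_pos w').le hv0.le)
  have y1 : y ≤ 1 := min_le_left _ _
  have h1 : |x - y| ≤ len (w - w') := by
    refine (abs_min_sub_min_le_max _ _ _ _).trans ?_
    rw [sub_self, abs_zero]
    refine max_le (len_nonneg _) ?_
    rw [← sub_div, abs_div, abs_of_pos hv0, div_le_iff₀ hv0]
    refine (jb_lip w w').trans ?_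
    nlinarith [len_nonneg (w - w')]
  have e : x ^ 4 - y ^ 4 = (x - y) * (x ^ 3 + x ^ 2 * y + x * y ^ 2 + y ^ 3) := by ring
  have a1 : x ^ 3 ≤ 1 := pow_le_one₀ x0 x1
  have a2 : x ^ 2 * y ≤ 1 := mul_le_one₀ (pow_le_one₀ x0 x1) y0 y1
  have a3 : x * y ^ 2 ≤ 1 := mul_le_one₀ x1 (by positivity) (pow_le_one₀ y0 y1)
  have a4 : y ^ 3 ≤ 1 := pow_le_one₀ y0 y1
  have a5 : 0 ≤ x ^ 3 + x ^ 2 * y + x * y ^ 2 + y ^ 3 := by positivity
  rw [e, abs_mul, abs_of_nonneg a5]
  calc |x - y| * (x ^ 3 + x ^ 2 * y + x * y ^ 2 + y ^ 3) ≤ len (w - w') * 4 :=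
        mul_le_mul h1 (by linarith) a5 (len_nonneg _)
    _ = 4 * len (w - w') := mul_comm _ _

theorem cuS_PhD (e : Fin d) (ha : -1 ≤ a) (ha0 : a ≤ 0) {r : ℝ} (hr : 0 < r) (_ : r ≤ 1) (v : Vec d) :
    CuS a v 30 (PhD e a r v) := by
  have hv0 := jb_pos v
  have h := (cuS_phiD e ha ha0 hr v).lip (L := 4) (η := fun w => min 1 (jb w / jb v) ^ 4) ha0 (by norm_num)
    (by norm_num) ((measurable_const.min (jb_cont.measurable.div_const _)).pow_const 4) (fun w => by
      have x0 : 0 ≤ min 1 (jb w / jb v) := le_min zero_le_one (div_nonneg (jb_pos w).le hv0.le)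
      rw [abs_of_nonneg (by positivity)]
      exact pow_le_one₀ x0 (min_le_left _ _)) (fun w w' => wt_Om_lip v w w')
  have e1 : (6 : ℝ) * (1 + 4) = 30 := by norm_num
  rw [e1] at h
  exact h

private lemma wt_chi_fac {v : Vec d} {A R : ℝ} {ψ : Vec d → ℝ} (hα0 : α ≤ 0) (hA : 0 ≤ A) (h : CuS α v A ψ)
    (hR : 1 ≤ R) : CuS α v (A * 3) fun w => chi R w * ψ w := by
  have h' := h.lip (L := 2) (η := chi R) hα0 hA le_rfl (chi_cont R).measurable (fun w => by
    rw [abs_of_nonneg (chi_nonneg R w)]; exact chi_le_one R w) (fun w w' => by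
    refine (wt_chi_lip hR w w').trans (mul_le_mul_of_nonneg_right ?_ (len_nonneg _))
    have : 1 / R ≤ 1 := by rw [div_le_one (by linarith)]; exact hR
    linarith)
  have e1 : A * (1 + 2) = A * 3 := by ring
  rwa [e1] at h'

theorem cuS_chiPhD (e : Fin d) (ha : -1 ≤ a) (ha0 : a ≤ 0) {r R : ℝ} (hr : 0 < r) (hr1 : r ≤ 1)
    (hR : 1 ≤ R) (v : Vec d) : CuS a v 90 fun w => chi R w * PhD e a r v w := by
  have h := wt_chi_fac ha0 (by norm_num) (cuS_PhD e ha ha0 hr hr1 v) hR
  have e1 : (30 : ℝ) * 3 = 90 := by norm_num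
  rwa [e1] at h

theorem cuS_chiPhDabs (e : Fin d) (ha : -1 ≤ a) (ha0 : a ≤ 0) {r R : ℝ} (hr : 0 < r) (hr1 : r ≤ 1)
    (hR : 1 ≤ R) (v : Vec d) : CuS a v 90 fun w => chi R w * |PhD e a r v w| := by
  have h := wt_chi_fac ha0 (by norm_num) (cuS_PhD e ha ha0 hr hr1 v).abs hR
  have e1 : (30 : ℝ) * 3 = 90 := by norm_num
  rwa [e1] at h

end Pool.Agent.H87.DW
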