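import Pool.Agent.H87.DW.Ren
import Pool.Agent.H87.DW.Wt

/-!
# W1 to W4 (dilute planar gas)

`conv_s` (Conv), `weak_s` (Weak), `ren_s` (Ren); test functions: `CuS.abs`, `CuS.lip`, `cuS_PhD`, `cuS_chiPhD`, `cuS_chiPhDabs`, `cuS_lip`, `cuS_chi`,
`cuS_chiE` (Wt); `wa_main`, `w1` (absolute weak form), `cancU` (upper cancellation), `pair_M`.
-/
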