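import Pool.Agent.H87.DW.Weak
import Pool.Agent.H87.DW.CancU

/-!
# The renormalised weak form (W3)
-/

set_option autoImplicit false

open MeasureTheory Set Filter Topology Pool.Agent.H25.Kin Pool.Agent.H48.PL Pool.Agent.H48.PI Pool.Agent.H48.PW
open Pool.Agent.H15.AV (kt vp wp kt_meas measurable_vp measurable_wp kt_coll vp_coll wp_coll kt_int kt_nonneg
  kt_swap kt_swap_int boltzCut_fold BTst int_src int_los int_swp cut_fold canc)
open scoped ENNReal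

namespace Pool.Agent.H87.DW

variable {d p : ℕ} {a α s γ C Ca ε Λ C₀ : ℝ} {b : ℝ → ℝ}

/-! ### the function `bet` -/

lemma rb1 (hC : 0 < C₀) {r : ℝ} (hr : 0 ≤ r) : 0 ≤ bet C₀ r ∧ bet C₀ r ≤ r := by
  unfold bet
  refine ⟨by positivity, ?_⟩
  rw [div_le_iff₀ (by linarith)]
  nlinarith

lemma rb2 (hC : 0 < C₀) {r : ℝ} (hr : 0 ≤ r) : 0 ≤ bet' C₀ r ∧ bet' C₀ r ≤ 1 := by
  unfold bet'
  refine ⟨by positivity, pow_le_one₀ (by positivity) ?_⟩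
  rw [div_le_one (by linarith)]
  linarith

lemma rb3 (hC : 0 < C₀) {x y : ℝ} (hx : 0 ≤ x) (hy : 0 ≤ y) :
    0 ≤ bet' C₀ x * (y - x) - (bet C₀ y - bet C₀ x) := by
  have h1 : 0 < C₀ + x := by linarith
  have h2 : 0 < C₀ + y := by linarith
  have e : bet' C₀ x * (y - x) - (bet C₀ y - bet C₀ x) =
      C₀ ^ 2 * (y - x) ^ 2 / ((C₀ + x) ^ 2 * (C₀ + y)) := by
    unfold bet' bet
    field_simp
    ring
  rw [e]
  positivity

lemma rb4 (hC : 0 < C₀) {x : ℝ} (hx : 0 ≤ x) :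
    0 ≤ bet C₀ x - x * bet' C₀ x ∧ bet C₀ x - x * bet' C₀ x ≤ x := by
  have h1 : 0 < C₀ + x := by linarith
  have e : bet C₀ x - x * bet' C₀ x = C₀ * x ^ 2 / (C₀ + x) ^ 2 := by
    unfold bet' bet
    field_simp
    ring
  refine ⟨by rw [e]; positivity, ?_⟩
  have h2 := (rb1 hC hx).2
  have h3 := mul_nonneg hx (rb2 hC hx).1
  linarith

lemma rm1 {g : Vec d → ℝ} (hg : Measurable g) : Measurable fun v => bet C₀ (g v) := by
  unfold bet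
  exact (hg.const_mul C₀).div (hg.const_add C₀)

lemma rm2 {g : Vec d → ℝ} (hg : Measurable g) : Measurable fun v => bet' C₀ (g v) := by
  unfold bet'
  exact (measurable_const.div (hg.const_add C₀)).pow_const 2

lemma rsup {g : Vec d → ℝ} (hg : RD g) : ∃ B : ℝ, 0 ≤ B ∧ ∀ v, |g v| ≤ B := by
  obtain ⟨C, hC⟩ := hg 0
  refine ⟨C, ?_, fun v => ?_⟩
  · have := hC 0
    rw [pow_zero, one_mul] at this
    exact (norm_nonneg _).trans this
  · have := hC v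
    rwa [pow_zero, one_mul, Real.norm_eq_abs] at this

lemma rK {R K : ℝ} {P : Vec d → ℝ} (hP : BTst R K P) : 0 ≤ K :=
  (abs_nonneg _).trans (hP.le 0)

lemma rmul {R K A : ℝ} {P Q : Vec d → ℝ} (hP : BTst R K P) (hQ : Measurable Q)
    (hA : ∀ v, |Q v| ≤ A) : BTst R (K * A) fun v => P v * Q v :=
  ⟨hP.meas.mul hQ, fun v hv => by rw [hP.supp v hv, zero_mul], fun v => by
    rw [abs_mul]
    exact mul_le_mul (hP.le v) (hA v) (abs_nonneg _) (rK hP)⟩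

/-! ### the cancellation terms -/

/-- the pairing `∫∫ |v-w|^γ g(w) |Q(v)|` -/
theorem pair_M (hd : 2 ≤ d) (hγ : 0 ≤ γ) (hγ2 : γ ≤ 2) (hα : -1 ≤ α) (hα0 : α ≤ 0) (hp : d + 5 ≤ p) :
    ∃ K : ℝ, 0 ≤ K ∧ ∀ Λ : ℝ, 0 ≤ Λ → ∀ g : Vec d → ℝ, (∀ v, 0 ≤ g v) →
      (∀ v, g v * (1 + nsq v) ^ p ≤ Λ) → ∀ (v₀ : Vec d) (A : ℝ) (Q : Vec d → ℝ), 0 ≤ A →
      (∀ v, v ≠ v₀ → |Q v| ≤ A * len (v - v₀) ^ α * g v) →
      ∫⁻ v : Vec d, ∫⁻ w : Vec d, ENNReal.ofReal (len (v - w) ^ γ * (g w * |Q v|)) ≤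
        ENNReal.ofReal (K * A * Λ ^ 2 * jb v₀ ^ α) := by
  obtain ⟨Ka, hKa, hca⟩ := conv_base (d := d) (β := α) hd (by linarith) hα0
  obtain ⟨Kc, hKc, hcc⟩ := conv_base (d := d) (β := 0) hd (by norm_num) le_rfl
  refine ⟨4 * Ka * Kc, by positivity, fun Λ hΛ g hg0 hgΛ v₀ A Q hA hQ => ?_⟩
  have hne : Nonempty (Fin d) := ⟨⟨0, by omega⟩⟩
  obtain ⟨ia, Ia⟩ := hca v₀
  obtain ⟨ic, Ic⟩ := hcc 0
  have cv0 : ∀ (β : ℝ) (u z : Vec d), 0 ≤ cvF β u z := fun β u z => by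
    have := jb_pos z
    have := Real.rpow_nonneg (len_nonneg (z - u)) β
    unfold cvF; positivity
  have hw : ∫⁻ w : Vec d, ENNReal.ofReal (cvF 0 0 w) ≤ ENNReal.ofReal Kc := by
    rw [← ofReal_integral_eq_lintegral_ofReal ic (Eventually.of_forall fun w => cv0 _ _ _)]
    refine ENNReal.ofReal_le_ofReal ?_
    rw [Real.rpow_zero, mul_one] at Ic
    exact Ic
  have hv : ∫⁻ v : Vec d, ENNReal.ofReal (4 * A * Λ ^ 2 * cvF α v₀ v) ≤
      ENNReal.ofReal (4 * A * Λ ^ 2 * (Ka * jb v₀ ^ α)) := by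
    rw [← ofReal_integral_eq_lintegral_ofReal (ia.const_mul _) (Eventually.of_forall fun v => by
      have := cv0 α v₀ v
      positivity)]
    refine ENNReal.ofReal_le_ofReal ?_
    rw [integral_const_mul]
    exact mul_le_mul_of_nonneg_left Ia (by positivity)
  have key : ∀ v w : Vec d, v ≠ v₀ → ENNReal.ofReal (len (v - w) ^ γ * (g w * |Q v|)) ≤
      ENNReal.ofReal (4 * A * Λ ^ 2 * cvF α v₀ v) * ENNReal.ofReal (cvF 0 0 w) := by
    intro v w hv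
    have c1 := cv0 α v₀ v
    rw [← ENNReal.ofReal_mul (by positivity)]
    refine ENNReal.ofReal_le_ofReal ?_
    have v1 := one_le_jb v
    have w1 := one_le_jb w
    have v0 := jb_pos v
    have w0 := jb_pos w
    have hX1 : 1 ≤ 2 * jb v * jb w := by nlinarith [mul_nonneg (sub_nonneg.2 v1) (sub_nonneg.2 w1)]
    have h1 : len (v - w) ^ γ ≤ 4 * (jb v ^ 2 * jb w ^ 2) := by
      calc len (v - w) ^ γ ≤ (2 * jb v * jb w) ^ γ := Real.rpow_le_rpow (len_nonneg _) (wa_len v w) hγ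
        _ ≤ (2 * jb v * jb w) ^ (2 : ℝ) := Real.rpow_le_rpow_of_exponent_le hX1 hγ2
        _ = (2 * jb v * jb w) ^ (2 : ℕ) := by norm_num
        _ = _ := by ring
    have h2 := hQ v hv
    have h3 := gg_le hg0 hgΛ hg0 (fun _ => le_rfl) hΛ v w
    have h4 := wa_Gi_le hp v w
    have hl := Real.rpow_nonneg (len_nonneg (v - v₀)) α
    have hG := (Gi_pos p v w).le
    have hg := hg0 w
    calc len (v - w) ^ γ * (g w * |Q v|) ≤ (4 * (jb v ^ 2 * jb w ^ 2)) * (g w * (A * len (v - v₀) ^ α * g v)) := by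
          gcongr
      _ = 4 * (jb v ^ 2 * jb w ^ 2) * A * len (v - v₀) ^ α * (g w * g v) := by ring
      _ ≤ 4 * (jb v ^ 2 * jb w ^ 2) * A * len (v - v₀) ^ α * (Λ ^ 2 * Gi p v w) := by gcongr
      _ = 4 * A * Λ ^ 2 * len (v - v₀) ^ α * (Gi p v w * (jb v ^ 2 * jb w ^ 2)) := by ring
      _ ≤ 4 * A * Λ ^ 2 * len (v - v₀) ^ α * ((jb v ^ (d + 3))⁻¹ * (jb w ^ (d + 3))⁻¹) := by gcongr
      _ = _ := by
          unfold cvF
          rw [Real.rpow_zero, mul_one]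
          ring
  calc ∫⁻ v : Vec d, ∫⁻ w : Vec d, ENNReal.ofReal (len (v - w) ^ γ * (g w * |Q v|))
      ≤ ∫⁻ v : Vec d, ENNReal.ofReal (4 * A * Λ ^ 2 * cvF α v₀ v) * ENNReal.ofReal Kc := by
        have h0 : ∀ᵐ v : Vec d ∂volume, v ∉ ({v₀} : Set (Vec d)) :=
          (Set.countable_singleton v₀).ae_notMem volume
        refine lintegral_mono_ae ?_
        filter_upwards [h0] with v hv0
        refine le_trans ?_ (mul_le_mul_right hw _)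
        rw [← lintegral_const_mul' _ _ ENNReal.ofReal_ne_top]
        exact lintegral_mono fun w => key v w fun h => hv0 h
    _ = (∫⁻ v : Vec d, ENNReal.ofReal (4 * A * Λ ^ 2 * cvF α v₀ v)) * ENNReal.ofReal Kc :=
        lintegral_mul_const' _ _ ENNReal.ofReal_ne_top
    _ ≤ ENNReal.ofReal (4 * A * Λ ^ 2 * (Ka * jb v₀ ^ α)) * ENNReal.ofReal Kc := mul_le_mul_left hv _
    _ = _ := by
        have hja := Real.rpow_nonneg (jb_pos v₀).le α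
        rw [← ENNReal.ofReal_mul (by positivity)]
        congr 1
        ring

/-- `∫ kt (g(w') - g(w)) Q(v)` -/
noncomputable def cnN (γ : ℝ) (b : ℝ → ℝ) (ε : ℝ) (g Q : Vec d → ℝ) : ℝ :=
  (∫ q, kt γ b ε q * (g (wp q) * Q q.1) ∂(mu3 d)) - ∫ q, kt γ b ε q * (g q.2.1 * Q q.1) ∂(mu3 d)

lemma cn_src (H : Hyp d γ s b C Ca) (hε : 0 < ε) {g : Vec d → ℝ} (hg : RD g) (hgc : Continuous g)
    {R K : ℝ} {Q : Vec d → ℝ} (hQ : BTst R K Q) :
    Integrable (fun q => kt γ b ε q * (g (wp q) * Q q.1)) (mu3 d) :=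
  int_src H hε hg hgc.measurable (F := fun q => Q q.1) (hQ.meas.comp measurable_fst)
    (A := K) (R := R) (fun q => hQ.le _) (fun q hq => hQ.supp _ hq)

lemma cn_los (H : Hyp d γ s b C Ca) (hε : 0 < ε) {g : Vec d → ℝ} (hg : RD g) (hgc : Continuous g)
    {R K : ℝ} {Q : Vec d → ℝ} (hQ : BTst R K Q) :
    Integrable (fun q => kt γ b ε q * (g q.2.1 * Q q.1)) (mu3 d) :=
  int_los H hε hg hgc.measurable (F := fun q => Q q.1) (hQ.meas.comp measurable_fst)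
    (A := K) (R := R) (fun q => hQ.le _) (fun q hq => hQ.supp _ hq)

lemma cn_abs (H : Hyp d γ s b C Ca) (hε : 0 < ε) {g : Vec d → ℝ} (hg : RD g) (hgc : Continuous g)
    (hg0 : ∀ v, 0 ≤ g v) {R K : ℝ} {Q : Vec d → ℝ} (hQ : BTst R K Q) :
    |cnN γ b ε g Q| ≤ cnN γ b ε g fun v => |Q v| := by
  have ha : BTst R K fun v => |Q v| :=
    ⟨continuous_abs.measurable.comp hQ.meas, fun v hv => by rw [hQ.supp v hv, abs_zero],
      fun v => by rw [abs_abs]; exact hQ.le v⟩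
  have s1 := cn_src (γ := γ) H hε hg hgc hQ
  have s2 := cn_src (γ := γ) H hε hg hgc ha
  have l1 := cn_los (γ := γ) H hε hg hgc hQ
  have l2 := cn_los (γ := γ) H hε hg hgc ha
  have hp : BTst R (K + K) fun v => |Q v| + Q v :=
    ⟨ha.meas.add hQ.meas, fun v hv => by rw [hQ.supp v hv, abs_zero, add_zero],
      fun v => (abs_add_le _ _).trans (add_le_add (ha.le v) (hQ.le v))⟩
  have hm : BTst R (K + K) fun v => |Q v| - Q v :=
    ⟨ha.meas.sub hQ.meas, fun v hv => by rw [hQ.supp v hv, abs_zero, sub_zero],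
      fun v => (abs_sub _ _).trans (add_le_add (ha.le v) (hQ.le v))⟩
  have c1 := canc H hε hg hgc hg0 hp fun v => by linarith [neg_abs_le (Q v)]
  have c2 := canc H hε hg hgc hg0 hm fun v => by linarith [le_abs_self (Q v)]
  have e1 : ∀ (X : Vec d × Vec d × Vec d → ℝ), Integrable (fun q => kt γ b ε q * (X q * Q q.1)) (mu3 d) →
      Integrable (fun q => kt γ b ε q * (X q * |Q q.1|)) (mu3 d) →
      ∫ q, kt γ b ε q * (X q * (|Q q.1| + Q q.1)) ∂(mu3 d) =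
        (∫ q, kt γ b ε q * (X q * |Q q.1|) ∂(mu3 d)) + ∫ q, kt γ b ε q * (X q * Q q.1) ∂(mu3 d) := by
    intro X h1 h2
    rw [← integral_add h2 h1]
    refine integral_congr_ae (Eventually.of_forall fun q => ?_)
    simp only
    ring
  have e2 : ∀ (X : Vec d × Vec d × Vec d → ℝ), Integrable (fun q => kt γ b ε q * (X q * Q q.1)) (mu3 d) →
      Integrable (fun q => kt γ b ε q * (X q * |Q q.1|)) (mu3 d) →
      ∫ q, kt γ b ε q * (X q * (|Q q.1| - Q q.1)) ∂(mu3 d) =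
        (∫ q, kt γ b ε q * (X q * |Q q.1|) ∂(mu3 d)) - ∫ q, kt γ b ε q * (X q * Q q.1) ∂(mu3 d) := by
    intro X h1 h2
    rw [← integral_sub h2 h1]
    refine integral_congr_ae (Eventually.of_forall fun q => ?_)
    simp only
    ring
  rw [e1 (fun q => g q.2.1) l1 l2, e1 (fun q => g (wp q)) s1 s2] at c1
  rw [e2 (fun q => g q.2.1) l1 l2, e2 (fun q => g (wp q)) s1 s2] at c2
  unfold cnN
  rw [abs_le]
  constructor <;> linarith

/-- the cancellation terms, general form -/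
theorem cn_gen (H : Hyp d γ s b C Ca) (hγ : 0 ≤ γ) :
    ∃ K : ℝ, 0 ≤ K ∧ ∀ ε : ℝ, 0 < ε → ∀ g : Vec d → ℝ, RD g → Continuous g →
      (∀ v, 0 ≤ g v) → ∀ (R L : ℝ) (Q : Vec d → ℝ), BTst R L Q → ∀ M : ℝ, 0 ≤ M →
      ∫⁻ v : Vec d, ∫⁻ w : Vec d, ENNReal.ofReal (len (v - w) ^ γ * (g w * |Q v|)) ≤ ENNReal.ofReal M →
      |(∫ q, kt γ b ε q * (g (wp q) * Q q.1) ∂(mu3 d)) - ∫ q, kt γ b ε q * (g q.2.1 * Q q.1) ∂(mu3 d)| ≤
        K * M := by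
  obtain ⟨K₁, hK₁, h1⟩ := cancU H hγ
  refine ⟨K₁, hK₁, fun ε hε g hg hgc hg0 R L Q hQ M hM0 hM => ?_⟩
  have ha : BTst R L fun v => |Q v| :=
    ⟨continuous_abs.measurable.comp hQ.meas, fun v hv => by rw [hQ.supp v hv, abs_zero],
      fun v => by rw [abs_abs]; exact hQ.le v⟩
  have h3 := h1 ε hε g hg hgc hg0 R L _ ha (fun v => abs_nonneg _) M hM0 hM
  have h4 := cn_abs (γ := γ) H hε hg hgc hg0 hQ
  unfold cnN at h4
  refine h4.trans ?_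
  linarith

theorem cn_bound (H : Hyp d γ s b C Ca) (hγ : 0 ≤ γ) (hα : -1 ≤ α) (hα0 : α ≤ 0) (hp : d + 5 ≤ p) :
    ∃ K : ℝ, 0 ≤ K ∧ ∀ ε : ℝ, 0 < ε → ∀ Λ : ℝ, 0 ≤ Λ → ∀ g : Vec d → ℝ, RD g → Continuous g →
      (∀ v, 0 ≤ g v) → (∀ v, g v * (1 + nsq v) ^ p ≤ Λ) → ∀ (v₀ : Vec d) (A R L : ℝ) (Q : Vec d → ℝ),
      0 ≤ A → BTst R L Q → (∀ v, v ≠ v₀ → |Q v| ≤ A * len (v - v₀) ^ α * g v) →
      |(∫ q, kt γ b ε q * (g (wp q) * Q q.1) ∂(mu3 d)) - ∫ q, kt γ b ε q * (g q.2.1 * Q q.1) ∂(mu3 d)| ≤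
        K * A * Λ ^ 2 * jb v₀ ^ α := by
  obtain ⟨K₁, hK₁, h1⟩ := cn_gen H hγ
  obtain ⟨K₂, hK₂, h2⟩ := pair_M (d := d) (p := p) H.hd hγ H.g2 hα hα0 hp
  refine ⟨K₁ * K₂, by positivity, fun ε hε Λ hΛ g hg hgc hg0 hgΛ v₀ A R L Q hA hQ hQA => ?_⟩
  have hj := Real.rpow_nonneg (jb_pos v₀).le α
  refine (h1 ε hε g hg hgc hg0 R L Q hQ (K₂ * A * Λ ^ 2 * jb v₀ ^ α)
    (by positivity) (h2 Λ hΛ g hg0 hgΛ v₀ A Q hA hQA)).trans (le_of_eq ?_)
  ring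

/-! ### the defect -/

/-- the defect density -/
noncomputable def rD (C₀ : ℝ) (g : Vec d → ℝ) (q : Vec d × Vec d × Vec d) : ℝ :=
  bet' C₀ (g q.1) * (g (vp q) - g q.1) - (bet C₀ (g (vp q)) - bet C₀ (g q.1))

/-- the defect functional -/
noncomputable def rN (γ : ℝ) (b : ℝ → ℝ) (ε C₀ : ℝ) (g P : Vec d → ℝ) : ℝ :=
  ∫ q, kt γ b ε q * (g (wp q) * (P q.1 * rD C₀ g q)) ∂(mu3 d)

lemma rD_meas {g : Vec d → ℝ} (hg : Measurable g) : Measurable (rD (d := d) C₀ g) := by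
  have m1 : Measurable fun q : Vec d × Vec d × Vec d => g q.1 := hg.comp measurable_fst
  have m2 : Measurable fun q : Vec d × Vec d × Vec d => g (vp q) := hg.comp measurable_vp
  have m3 : Measurable fun q : Vec d × Vec d × Vec d => bet' C₀ (g q.1) :=
    Measurable.comp (g := fun v => bet' C₀ (g v)) (rm2 hg) measurable_fst
  have m4 : Measurable fun q : Vec d × Vec d × Vec d => bet C₀ (g q.1) :=
    Measurable.comp (g := fun v => bet C₀ (g v)) (rm1 hg) measurable_fst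
  have m5 : Measurable fun q : Vec d × Vec d × Vec d => bet C₀ (g (vp q)) :=
    Measurable.comp (g := fun v => bet C₀ (g v)) (rm1 hg) measurable_vp
  unfold rD
  exact (m3.mul (m2.sub m1)).sub (m5.sub m4)

lemma rD_abs (hC : 0 < C₀) {g : Vec d → ℝ} (hg0 : ∀ v, 0 ≤ g v) {B : ℝ} (hB : ∀ v, |g v| ≤ B)
    (q : Vec d × Vec d × Vec d) : 0 ≤ rD C₀ g q ∧ |rD C₀ g q| ≤ 2 * B := by
  have h0 : 0 ≤ rD C₀ g q := rb3 hC (hg0 _) (hg0 _)
  refine ⟨h0, ?_⟩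
  rw [abs_of_nonneg h0]
  have h1 := rb2 hC (hg0 q.1)
  have h2 := rb1 hC (hg0 q.1)
  have h3 := rb1 hC (hg0 (vp q))
  have h4 := (abs_le.1 (hB q.1)).2
  have h5 := (abs_le.1 (hB (vp q))).2
  have h6 := mul_nonneg h1.1 (hg0 q.1)
  have h7 : bet' C₀ (g q.1) * g (vp q) ≤ g (vp q) := mul_le_of_le_one_left (hg0 _) h1.2
  unfold rD
  rw [mul_sub]
  linarith

lemma rN_int (H : Hyp d γ s b C Ca) (hε : 0 < ε) (hC : 0 < C₀) {g : Vec d → ℝ} (hg : RD g)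
    (hgc : Continuous g) (hg0 : ∀ v, 0 ≤ g v) {R K : ℝ} {P : Vec d → ℝ} (hP : BTst R K P) :
    Integrable (fun q => kt γ b ε q * (g (wp q) * (P q.1 * rD C₀ g q))) (mu3 d) := by
  obtain ⟨B, hB0, hB⟩ := rsup hg
  refine int_src H hε hg hgc.measurable (R := R) (A := K * (2 * B))
    ((hP.meas.comp measurable_fst).mul (rD_meas hgc.measurable)) (fun q => ?_) (fun q hq => ?_)
  · rw [abs_mul]
    exact mul_le_mul (hP.le _) (rD_abs hC hg0 hB q).2 (abs_nonneg _) (rK hP)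
  · rw [hP.supp _ hq, zero_mul]

lemma rN_le (H : Hyp d γ s b C Ca) (hε : 0 < ε) (hC : 0 < C₀) {g : Vec d → ℝ} (hg : RD g)
    (hgc : Continuous g) (hg0 : ∀ v, 0 ≤ g v) {R K R' K' : ℝ} {P P' : Vec d → ℝ}
    (hP : BTst R K P) (hP' : BTst R' K' P') (h : ∀ v, |P v| ≤ P' v) :
    |rN γ b ε C₀ g P| ≤ rN γ b ε C₀ g P' := by
  obtain ⟨B, hB0, hB⟩ := rsup hg
  have i1 := rN_int (γ := γ) H hε hC hg hgc hg0 hP
  have i2 := rN_int (γ := γ) H hε hC hg hgc hg0 hP'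
  unfold rN
  refine (abs_integral_le_integral_abs).trans (integral_mono_ae i1.abs i2 ?_)
  filter_upwards [ae_good H.hd1] with q hq
  have hk := kt_nonneg (γ := γ) H hε hq.2
  have hd := (rD_abs hC hg0 hB q).1
  rw [abs_mul, abs_mul, abs_mul, abs_of_nonneg hk, abs_of_nonneg (hg0 _), abs_of_nonneg hd]
  have := h q.1
  have := hg0 (wp q)
  gcongr

/-- the renormalised identity -/
lemma ren_split (H : Hyp d γ s b C Ca) (hε : 0 < ε) (hC : 0 < C₀) {g : Vec d → ℝ} (hg : RD g)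
    (hgc : Continuous g) (hg0 : ∀ v, 0 ≤ g v) {R K : ℝ} {P : Vec d → ℝ} (hP : BTst R K P) :
    ∫ v, boltzCut γ b ε g v * (P v * bet' C₀ (g v)) = rN γ b ε C₀ g P -
      ((∫ q, kt γ b ε q * (g (wp q) * (P q.1 * (bet C₀ (g q.1) - g q.1 * bet' C₀ (g q.1)))) ∂(mu3 d)) -
        ∫ q, kt γ b ε q * (g q.2.1 * (P q.1 * (bet C₀ (g q.1) - g q.1 * bet' C₀ (g q.1)))) ∂(mu3 d)) +
      ∫ q, kt γ b ε q * (g q.2.1 * bet C₀ (g q.1) * (P (vp q) - P q.1)) ∂(mu3 d) := by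
  obtain ⟨B, hB0, hB⟩ := rsup hg
  have hgm := hgc.measurable
  have hbb : ∀ v, |bet C₀ (g v)| ≤ B := fun v => by
    have h1 := rb1 hC (hg0 v)
    have h2 := (abs_le.1 (hB v)).2
    rw [abs_of_nonneg h1.1]
    linarith
  have hb' : ∀ v, |bet' C₀ (g v)| ≤ 1 := fun v => by
    have h1 := rb2 hC (hg0 v)
    rw [abs_of_nonneg h1.1]
    exact h1.2
  have hz : ∀ v, |bet C₀ (g v) - g v * bet' C₀ (g v)| ≤ B := fun v => by
    have h1 := rb4 hC (hg0 v)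
    have h2 := (abs_le.1 (hB v)).2
    rw [abs_of_nonneg h1.1]
    linarith
  have hzm : Measurable fun v => bet C₀ (g v) - g v * bet' C₀ (g v) := (rm1 hgm).sub (hgm.mul (rm2 hgm))
  have hP1 : BTst R (K * 1) fun v => P v * bet' C₀ (g v) := rmul hP (rm2 hgm) hb'
  have hP2 : BTst R (K * B) fun v => P v * (bet C₀ (g v) - g v * bet' C₀ (g v)) := rmul hP hzm hz
  have hP3 : BTst R (K * B) fun v => P v * bet C₀ (g v) := rmul hP (rm1 hgm) hbb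
  have e1 := cut_fold H hε hg hgc hP1
  have iN := rN_int (γ := γ) H hε hC hg hgc hg0 hP
  have iS := cn_src (γ := γ) H hε hg hgc hP2
  have iL := cn_los (γ := γ) H hε hg hgc hP2
  have iB := cn_los (γ := γ) H hε hg hgc hP3
  have iV : Integrable (fun q => kt γ b ε q * (g q.2.1 * (bet C₀ (g q.1) * P (vp q)))) (mu3 d) :=
    int_swp H hε hg hgm (rm1 hgm) hbb hP
  have hF : Measurable fun q : Vec d × Vec d × Vec d × Vec d =>
      (fun v w v' _ : Vec d => g w * (bet C₀ (g v) * P v')) q.1 q.2.1 q.2.2.1 q.2.2.2 := by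
    have m1 : Measurable fun q : Vec d × Vec d × Vec d × Vec d => g q.2.1 :=
      hgm.comp (measurable_fst.comp measurable_snd)
    have m2 : Measurable fun q : Vec d × Vec d × Vec d × Vec d => bet C₀ (g q.1) :=
      Measurable.comp (g := fun v => bet C₀ (g v)) (rm1 hgm) measurable_fst
    have m3 : Measurable fun q : Vec d × Vec d × Vec d × Vec d => P q.2.2.1 :=
      hP.meas.comp (measurable_fst.comp (measurable_snd.comp measurable_snd))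
    exact m1.mul (m2.mul m3)
  have sw := kt_swap (γ := γ) (b := b) (ε := ε) H.hd1 H.bm
    (F := fun v w v' _ : Vec d => g w * (bet C₀ (g v) * P v')) hF
  have iW := kt_swap_int (γ := γ) (b := b) (ε := ε) H.hd1 H.bm
    (F := fun v w v' _ : Vec d => g w * (bet C₀ (g v) * P v')) hF iV
  rw [e1]
  have e2 : ∫ q, kt γ b ε q * (g q.2.1 * bet C₀ (g q.1) * (P (vp q) - P q.1)) ∂(mu3 d) =
      (∫ q, kt γ b ε q * (g q.2.1 * (bet C₀ (g q.1) * P (vp q))) ∂(mu3 d)) -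
        ∫ q, kt γ b ε q * (g q.2.1 * (P q.1 * bet C₀ (g q.1))) ∂(mu3 d) := by
    rw [← integral_sub iV iB]
    refine integral_congr_ae (Eventually.of_forall fun q => ?_)
    simp only
    ring
  have i1 : Integrable (fun q => kt γ b ε q * (g (wp q) * (P q.1 * rD C₀ g q)) -
      (kt γ b ε q * (g (wp q) * (P q.1 * (bet C₀ (g q.1) - g q.1 * bet' C₀ (g q.1)))) -
        kt γ b ε q * (g q.2.1 * (P q.1 * (bet C₀ (g q.1) - g q.1 * bet' C₀ (g q.1)))))) (mu3 d) :=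
    iN.sub (iS.sub iL)
  have i2 : Integrable (fun q => kt γ b ε q * (g (wp q) * (bet C₀ (g (vp q)) * P q.1)) -
      kt γ b ε q * (g q.2.1 * (P q.1 * bet C₀ (g q.1)))) (mu3 d) := iW.sub iB
  have iSL : Integrable (fun q => kt γ b ε q * (g (wp q) * (P q.1 * (bet C₀ (g q.1) - g q.1 * bet' C₀ (g q.1)))) -
        kt γ b ε q * (g q.2.1 * (P q.1 * (bet C₀ (g q.1) - g q.1 * bet' C₀ (g q.1))))) (mu3 d) := iS.sub iL
  unfold rN
  rw [e2, ← sw, ← integral_sub iS iL, ← integral_sub iN iSL, ← integral_sub iW iB,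
    ← integral_add i1 i2]
  refine integral_congr_ae (Eventually.of_forall fun q => ?_)
  simp only [rD]
  ring

theorem ren_cut (H : Hyp d γ s b C Ca) (h2 : 2 * s < 1) (hγ : 0 ≤ γ) (hα : -1 ≤ α) (hα0 : α ≤ 0)
    (hp : d + 5 ≤ p) :
    ∃ K : ℝ, 0 ≤ K ∧ ∀ ε : ℝ, 0 < ε → ε ≤ 1 → ∀ C₀ : ℝ, 0 < C₀ → ∀ Λ : ℝ, 0 ≤ Λ → ∀ g : Vec d → ℝ,
      RD g → Continuous g →
      (∀ v, 0 ≤ g v) → (∀ v, g v * (1 + nsq v) ^ p ≤ Λ) → ∀ (v : Vec d) (A R L : ℝ) (ψ Ψ : Vec d → ℝ),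
      0 ≤ A → CuS α v A ψ → CuS α v A Ψ → (∀ w, |ψ w| ≤ Ψ w) → BTst R L ψ → BTst R L Ψ →
      |∫ w, boltzCut γ b ε g w * (ψ w * bet' C₀ (g w))| ≤
        (∫ w, boltzCut γ b ε g w * (Ψ w * bet' C₀ (g w))) + K * A * Λ ^ 2 * jb v ^ α := by
  obtain ⟨K₁, hK₁, h1⟩ := w1 (p := p) H h2 hγ hα hα0 hp
  obtain ⟨K₂, hK₂, h2'⟩ := cn_bound (p := p) H hγ hα hα0 hp
  refine ⟨2 * (K₁ + K₂), by positivity, fun ε hε hε1 C₀ hC Λ hΛ g hg hgc hg0 hgΛ v A R L ψ Ψ hA hψ hΨ hle bψ bΨ => ?_⟩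
  have hgm := hgc.measurable
  obtain ⟨B, hB0, hB⟩ := rsup hg
  have hz : ∀ v, |bet C₀ (g v) - g v * bet' C₀ (g v)| ≤ B := fun v => by
    have h1 := rb4 hC (hg0 v)
    have h2 := (abs_le.1 (hB v)).2
    rw [abs_of_nonneg h1.1]
    linarith
  have hzm : Measurable fun v => bet C₀ (g v) - g v * bet' C₀ (g v) := (rm1 hgm).sub (hgm.mul (rm2 hgm))
  have hQ : ∀ P : Vec d → ℝ, CuS α v A P → ∀ w, w ≠ v →
      |P w * (bet C₀ (g w) - g w * bet' C₀ (g w))| ≤ A * len (w - v) ^ α * g w := by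
    intro P hP w hw
    have a1 := rb4 hC (hg0 w)
    rw [abs_mul, abs_of_nonneg a1.1]
    exact mul_le_mul (hP.h0 w hw) a1.2 a1.1 (mul_nonneg hA (Real.rpow_nonneg (len_nonneg _) _))
  have e1 := ren_split (γ := γ) H hε hC hg hgc hg0 bψ
  have e2 := ren_split (γ := γ) H hε hC hg hgc hg0 bΨ
  have c1 := h2' ε hε Λ hΛ g hg hgc hg0 hgΛ v A R (L * B) _ hA (rmul bψ hzm hz) (hQ ψ hψ)
  have c2 := h2' ε hε Λ hΛ g hg hgc hg0 hgΛ v A R (L * B) _ hA (rmul bΨ hzm hz) (hQ Ψ hΨ)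
  have l1 := h1 ε hε hε1 Λ hΛ g (fun v => bet C₀ (g v)) hg0 hgΛ (fun v => (rb1 hC (hg0 v)).1)
    (fun v => (rb1 hC (hg0 v)).2) v A ψ hA hψ
  have l2 := h1 ε hε hε1 Λ hΛ g (fun v => bet C₀ (g v)) hg0 hgΛ (fun v => (rb1 hC (hg0 v)).1)
    (fun v => (rb1 hC (hg0 v)).2) v A Ψ hA hΨ
  have n1 := rN_le (γ := γ) H hε hC hg hgc hg0 bψ bΨ hle
  rw [e1]
  have a1 := abs_le.1 c1
  have a2 := abs_le.1 c2
  have a3 := abs_le.1 l1
  have a4 := abs_le.1 l2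
  have a5 := abs_le.1 n1
  rw [e2, abs_le]
  have e3 : 2 * (K₁ + K₂) * A * Λ ^ 2 * jb v ^ α = 2 * (K₁ * A * Λ ^ 2 * jb v ^ α) + 2 * (K₂ * A * Λ ^ 2 * jb v ^ α) := by
    ring
  rw [e3]
  constructor <;> linarith

/-- W3: the renormalised weak form; the defect for `ψ` is at most the defect for `Ψ ≥ |ψ|` -/
theorem ren_s (H : Hyp d (1 + a) s b C Ca) (h2 : 2 * s < 1) (ha : -1 ≤ a) (_ : a ≤ 0)
    (hα : -1 ≤ α) (hα0 : α ≤ 0) (hp : d + 5 ≤ p) :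
    ∃ K : ℝ, 0 ≤ K ∧ ∀ C₀ : ℝ, 0 < C₀ → ∀ Λ : ℝ, 0 ≤ Λ → ∀ g : Vec d → ℝ, Nice g →
      (∀ v, 0 ≤ g v) → (∀ v, g v * (1 + nsq v) ^ p ≤ Λ) → ∀ (v : Vec d) (A R : ℝ) (ψ Ψ : Vec d → ℝ),
      0 ≤ A → CuS α v A ψ → CuS α v A Ψ → (∀ w, |ψ w| ≤ Ψ w) → (∀ w, R ≤ ‖w‖ → Ψ w = 0) →
      |∫ w, bet' C₀ (g w) * boltzQ (1 + a) b g w * ψ w| ≤
        (∫ w, bet' C₀ (g w) * boltzQ (1 + a) b g w * Ψ w) + K * A * Λ ^ 2 * jb v ^ α := by
  obtain ⟨K, hK, h1⟩ := ren_cut (p := p) H h2 (by linarith : 0 ≤ 1 + a) hα hα0 hp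
  refine ⟨K, hK, fun C₀ hC Λ hΛ g hg hg0 hgΛ v A R ψ Ψ hA hψ hΨ hle hsupp => ?_⟩
  obtain ⟨B, hB⟩ := hΨ.bd
  have hgm := hg.cont.measurable
  have hB0 : 0 ≤ B := (abs_nonneg _).trans (hB 0)
  have hψB : ∀ w, |ψ w| ≤ B := fun w => (hle w).trans ((le_abs_self _).trans (hB w))
  have bΨ : BTst R B Ψ := ⟨hΨ.meas, hsupp, hB⟩
  have bψ : BTst R B ψ := ⟨hψ.meas, fun w hw => by
    have := hle w
    rw [hsupp w hw] at this
    exact abs_eq_zero.1 (le_antisymm this (abs_nonneg _)), hψB⟩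
  have lim : ∀ P : Vec d → ℝ, Measurable P → (∀ w, |P w| ≤ B) →
      Tendsto (fun ε => ∫ w, boltzCut (1 + a) b ε g w * (P w * bet' C₀ (g w))) (𝓝[>] 0)
        (𝓝 (∫ w, bet' C₀ (g w) * boltzQ (1 + a) b g w * P w)) := by
    intro P hP hPB
    have hPG : PG fun w => P w * bet' C₀ (g w) := ⟨0, B, fun w => by
      rw [pow_zero, mul_one, Real.norm_eq_abs, abs_mul]
      have a1 := rb2 hC (hg0 w)
      rw [abs_of_nonneg a1.1]
      calc |P w| * bet' C₀ (g w) ≤ B * 1 := mul_le_mul (hPB w) a1.2 a1.1 hB0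
        _ = B := mul_one _⟩
    have h := boltz_weak_tendsto H hg hPG (hP.mul (rm2 hgm))
    have e : ∫ w, bet' C₀ (g w) * boltzQ (1 + a) b g w * P w =
        ∫ w, boltzQ (1 + a) b g w * (P w * bet' C₀ (g w)) := by
      refine integral_congr_ae (Eventually.of_forall fun w => ?_)
      simp only
      ring
    rw [e]
    exact h
  have t1 := (lim ψ hψ.meas hψB).abs
  have t2 := (lim Ψ hΨ.meas hB).add_const (K * A * Λ ^ 2 * jb v ^ α)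
  refine le_of_tendsto_of_tendsto t1 t2 ?_
  filter_upwards [self_mem_nhdsWithin, Ioc_mem_nhdsGT (one_pos : (0 : ℝ) < 1)] with ε hε hε1
  exact h1 ε hε hε1.2 C₀ hC Λ hΛ g hg.rd hg.cont hg0 hgΛ v A R B ψ Ψ hA hψ hΨ hle bψ bΨ

end Pool.Agent.H87.DW
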