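import Pool.Agent.H87.DW.Conv

/-!
# The absolute weak form (W1)
-/

set_option autoImplicit false

open MeasureTheory Set Filter Topology Pool.Agent.H25.Kin Pool.Agent.H48.PL Pool.Agent.H48.PI Pool.Agent.H48.PW
open Pool.Agent.H82.BK (bt bcut Kn hh co BB dir)
open Pool.Agent.H15.AV (kt vp wp kt_meas measurable_vp measurable_wp kt_coll vp_coll wp_coll)
open Pool.Agent.H15.G1 (qC cu_ang)
open scoped ENNReal

namespace Pool.Agent.H87.DW

variable {d p : ℕ} {α s γ C Ca ε Λ : ℝ} {b : ℝ → ℝ}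

/-- `(1+|v|²+|w|²)^(-p)` -/
noncomputable def Gi (p : ℕ) (v w : Vec d) : ℝ := ((1 + nsq v + nsq w) ^ p)⁻¹

lemma Gi_pos (p : ℕ) (v w : Vec d) : 0 < Gi p v w := by
  have h1 := sq_nonneg' v
  have h2 := sq_nonneg' w
  unfold Gi
  positivity

lemma Gi_coll (p : ℕ) {v w σ : Vec d} (hσ : nsq σ = 1) : Gi p (post v w σ) (post' v w σ) = Gi p v w := by
  unfold Gi
  have h := energy_post (v := v) (w := w) hσ
  rw [add_assoc, h, ← add_assoc]

lemma Gi_meas (p : ℕ) : Measurable fun q : Vec d × Vec d × Vec d => Gi p q.1 q.2.1 := by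
  unfold Gi
  have h : Continuous fun q : Vec d × Vec d × Vec d => (1 + nsq q.1 + nsq q.2.1) ^ p :=
    ((continuous_const.add (continuous_sq.comp continuous_fst)).add
      (continuous_sq.comp (continuous_fst.comp continuous_snd))).pow p
  exact h.measurable.inv

/-- the densities: `g_* h ≤ Λ² (1+|v|²+|w|²)^(-p)` -/
lemma gg_le {g h : Vec d → ℝ} (hg0 : ∀ v, 0 ≤ g v) (hg : ∀ v, g v * (1 + nsq v) ^ p ≤ Λ)
    (hh0 : ∀ v, 0 ≤ h v) (hhg : ∀ v, h v ≤ g v) (hΛ : 0 ≤ Λ) (v w : Vec d) :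
    g w * h v ≤ Λ ^ 2 * Gi p v w := by
  have h1 := sq_nonneg' v
  have h2 := sq_nonneg' w
  have b1 : h v * (1 + nsq v) ^ p ≤ Λ :=
    (mul_le_mul_of_nonneg_right (hhg v) (by positivity)).trans (hg v)
  have b3 : (1 + nsq v + nsq w) ^ p ≤ (1 + nsq v) ^ p * (1 + nsq w) ^ p := by
    rw [← mul_pow]
    refine pow_le_pow_left₀ (by positivity) ?_ _
    nlinarith [mul_nonneg h1 h2]
  unfold Gi
  rw [← div_eq_mul_inv, le_div_iff₀ (by positivity)]
  calc g w * h v * (1 + nsq v + nsq w) ^ p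
      ≤ g w * h v * ((1 + nsq v) ^ p * (1 + nsq w) ^ p) :=
        mul_le_mul_of_nonneg_left b3 (mul_nonneg (hg0 w) (hh0 v))
    _ = (g w * (1 + nsq w) ^ p) * (h v * (1 + nsq v) ^ p) := by ring
    _ ≤ Λ * Λ := mul_le_mul (hg w) b1 (mul_nonneg (hh0 v) (by positivity)) hΛ
    _ = Λ ^ 2 := by ring

lemma wa_Gi_le (hp : d + 5 ≤ p) (v w : Vec d) :
    Gi p v w * (jb v ^ 2 * jb w ^ 2) ≤ (jb v ^ (d + 3))⁻¹ * (jb w ^ (d + 3))⁻¹ := by
  have h1 := sq_nonneg' v
  have h2 := sq_nonneg' w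
  have v1 := one_le_jb v
  have w1 := one_le_jb w
  have v0 := jb_pos v
  have w0 := jb_pos w
  have e1 : jb v * jb w ≤ 1 + nsq v + nsq w := by
    have a1 := jb_sq v
    have a2 := jb_sq w
    nlinarith [sq_nonneg (jb v - jb w)]
  have e2 : (jb v * jb w) ^ (d + 5) ≤ (1 + nsq v + nsq w) ^ p := by
    calc (jb v * jb w) ^ (d + 5) ≤ (jb v * jb w) ^ p :=
          pow_le_pow_right₀ (one_le_mul_of_one_le_of_one_le v1 w1) hp
      _ ≤ _ := pow_le_pow_left₀ (by positivity) e1 _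
  unfold Gi
  rw [inv_mul_le_iff₀ (by positivity), ← mul_inv, ← div_eq_mul_inv, le_div_iff₀ (by positivity)]
  calc jb v ^ 2 * jb w ^ 2 * (jb v ^ (d + 3) * jb w ^ (d + 3)) = (jb v * jb w) ^ (d + 5) := by
        rw [mul_pow]; ring
    _ ≤ _ := e2

private lemma wa_qC (hs : 0 < s) (hε : 0 < ε) {v w : Vec d} (hvw : v ≠ w) {ρ : ℝ} (hρ : 0 < ρ) :
    qC s ε ρ v w ≤ 1 + (len (v - w) / ρ) ^ (2 * s) := by
  have hV : 0 < nsq (v - w) := sq_pos_of_ne (sub_ne_zero.2 hvw)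
  have hl : 0 < len (v - w) := len_pos (sub_ne_zero.2 hvw)
  unfold qC
  set x : ℝ := ρ ^ 2 / nsq (v - w) with hx
  have hx0 : 0 < x := by positivity
  have hm : 0 < min 1 x := lt_min one_pos hx0
  have h1 : max ε (min 1 x) ^ (-s) ≤ (min 1 x) ^ (-s) :=
    Real.rpow_le_rpow_of_nonpos hm (le_max_right _ _) (by linarith)
  refine h1.trans ?_
  have h2 : 0 ≤ (len (v - w) / ρ) ^ (2 * s) := by positivity
  rcases le_total 1 x with hc | hc
  · rw [min_eq_left hc, Real.one_rpow]; linarith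
  · rw [min_eq_right hc]
    have e : x ^ (-s) = (len (v - w) / ρ) ^ (2 * s) := by
      have e1 : x = ((len (v - w) / ρ) ^ 2)⁻¹ := by
        rw [hx, div_pow, len_sq, inv_div]
      rw [e1, Real.inv_rpow (by positivity), Real.rpow_neg (by positivity), inv_inv,
        ← Real.rpow_natCast, ← Real.rpow_mul (by positivity)]
      norm_num
    rw [e]; linarith

lemma wa_len (v w : Vec d) : len (v - w) ≤ 2 * jb v * jb w := by
  have h1 := len_sub_le v w
  have h2 := len_le_jb v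
  have h3 := len_le_jb w
  have v1 := one_le_jb v
  have w1 := one_le_jb w
  nlinarith [mul_nonneg (sub_nonneg.2 v1) (sub_nonneg.2 w1)]

/-- `|V|^γ (1 + (|V|/ρ')^(2s)) ≤ 4⟨v⟩²⟨w⟩²(2 + ρ^(-2s))`, `1/ρ' = 1 + 1/ρ` -/
private lemma wa_ker (hs : 0 < s) (h2s : 2 * s < 1) (hγ : 0 ≤ γ) (hγs : γ + 2 * s ≤ 2) {v w : Vec d}
    (hvw : v ≠ w) {ρ : ℝ} (hρ : 0 < ρ) :
    len (v - w) ^ γ * (1 + (len (v - w) / (1 + 1 / ρ)⁻¹) ^ (2 * s)) ≤
      4 * (jb v ^ 2 * jb w ^ 2) * (2 + ρ ^ (-(2 * s))) := by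
  have hl : 0 < len (v - w) := len_pos (sub_ne_zero.2 hvw)
  have v1 := one_le_jb v
  have w1 := one_le_jb w
  set X : ℝ := 2 * jb v * jb w with hX
  have hlX : len (v - w) ≤ X := wa_len v w
  have hX1 : 1 ≤ X := by nlinarith [mul_nonneg (sub_nonneg.2 v1) (sub_nonneg.2 w1)]
  have hX2 : X ^ (2 : ℕ) = 4 * (jb v ^ 2 * jb w ^ 2) := by rw [hX]; ring
  have q : ∀ c : ℝ, 0 ≤ c → c ≤ 2 → len (v - w) ^ c ≤ X ^ (2 : ℕ) := by
    intro c hc0 hc2
    calc len (v - w) ^ c ≤ X ^ c := Real.rpow_le_rpow hl.le hlX hc0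
      _ ≤ X ^ (2 : ℝ) := Real.rpow_le_rpow_of_exponent_le hX1 hc2
      _ = X ^ (2 : ℕ) := by norm_num
  have h1 := q γ hγ (by linarith)
  have h2 := q (γ + 2 * s) (by linarith) hγs
  have e1 : (len (v - w) / (1 + 1 / ρ)⁻¹) ^ (2 * s) = len (v - w) ^ (2 * s) * (1 + 1 / ρ) ^ (2 * s) := by
    rw [div_inv_eq_mul, Real.mul_rpow hl.le (by positivity)]
  have e2 : (1 + 1 / ρ) ^ (2 * s) ≤ 1 + ρ ^ (-(2 * s)) := by
    have := Real.rpow_add_le_add_rpow (p := 2 * s) (a := 1) (b := 1 / ρ) zero_le_one (by positivity)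
      (by linarith) h2s.le
    rw [Real.one_rpow, one_div, Real.inv_rpow hρ.le, ← Real.rpow_neg hρ.le] at this
    rwa [one_div]
  have e3 : len (v - w) ^ γ * len (v - w) ^ (2 * s) = len (v - w) ^ (γ + 2 * s) := (Real.rpow_add hl _ _).symm
  have hp1 := Real.rpow_nonneg hl.le (γ + 2 * s)
  have hp2 : 0 ≤ ρ ^ (-(2 * s)) := by positivity
  rw [e1, ← hX2]
  calc len (v - w) ^ γ * (1 + len (v - w) ^ (2 * s) * (1 + 1 / ρ) ^ (2 * s))
      = len (v - w) ^ γ + len (v - w) ^ (γ + 2 * s) * (1 + 1 / ρ) ^ (2 * s) := by rw [← e3]; ring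
    _ ≤ X ^ 2 + X ^ 2 * (1 + ρ ^ (-(2 * s))) := by gcongr
    _ = _ := by ring

/-- the symmetrised density -/
private noncomputable def waF (γ : ℝ) (b : ℝ → ℝ) (ε : ℝ) (p : ℕ) (ψ : Vec d → ℝ) (q : Vec d × Vec d × Vec d) : ℝ :=
  kt γ b ε q * (Gi p q.1 q.2.1 * |ψ (vp q) - ψ q.1|)

private lemma waF_meas (hb : Measurable b) {ψ : Vec d → ℝ} (hψ : Measurable ψ) :
    Measurable (waF (d := d) γ b ε p ψ) := by
  unfold waF
  exact (kt_meas hb).mul ((Gi_meas p).mul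
    (continuous_abs.measurable.comp ((hψ.comp measurable_vp).sub (hψ.comp measurable_fst))))

open Classical in
/-- the part with `|v-v₀| ≤ |v'-v₀|` -/
private noncomputable def waH (γ : ℝ) (b : ℝ → ℝ) (ε : ℝ) (p : ℕ) (v₀ : Vec d) (ψ : Vec d → ℝ)
    (q : Vec d × Vec d × Vec d) : ℝ≥0∞ :=
  if len (q.1 - v₀) ≤ len (vp q - v₀) then ENNReal.ofReal (waF γ b ε p ψ q) else 0

private lemma wa_len_meas (v₀ : Vec d) : Measurable fun w : Vec d => len (w - v₀) := by
  have : Continuous fun w : Vec d => len (w - v₀) := by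
    unfold len
    exact (continuous_sq.comp (continuous_id.sub continuous_const)).sqrt
  exact this.measurable

private lemma waH_meas (hb : Measurable b) (v₀ : Vec d) {ψ : Vec d → ℝ} (hψ : Measurable ψ) :
    Measurable (waH (d := d) γ b ε p v₀ ψ) := by
  classical
  have m1 := wa_len_meas v₀
  unfold waH
  exact Measurable.ite (measurableSet_le (Measurable.comp (g := fun w : Vec d => len (w - v₀)) m1 measurable_fst)
    (Measurable.comp (g := fun w : Vec d => len (w - v₀)) m1 measurable_vp))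
    (waF_meas hb hψ).ennreal_ofReal measurable_const

private lemma wa_sym (hd : 1 ≤ d) (hb : Measurable b) (v₀ : Vec d) {ψ : Vec d → ℝ} (hψ : Measurable ψ) :
    ∫⁻ q, ENNReal.ofReal (waF γ b ε p ψ q) ∂(mu3 d) ≤ 2 * ∫⁻ q, waH γ b ε p v₀ ψ q ∂(mu3 d) := by
  classical
  have hH := waH_meas (γ := γ) (ε := ε) (p := p) hb v₀ hψ
  have h1 : ∫⁻ q, waH γ b ε p v₀ ψ (coll q) ∂(mu3 d) = ∫⁻ q, waH γ b ε p v₀ ψ q ∂(mu3 d) :=
    (coll_preserving hd).lintegral_comp hH
  calc ∫⁻ q, ENNReal.ofReal (waF γ b ε p ψ q) ∂(mu3 d)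
      ≤ ∫⁻ q, (waH γ b ε p v₀ ψ q + waH γ b ε p v₀ ψ (coll q)) ∂(mu3 d) := by
        refine lintegral_mono_ae ?_
        filter_upwards [ae_good hd] with q hq
        have e1 : waF γ b ε p ψ (coll q) = waF γ b ε p ψ q := by
          unfold waF
          rw [kt_coll hq.1 hq.2, vp_coll hq.1 hq.2]
          have e2 : Gi p (coll q).1 (coll q).2.1 = Gi p q.1 q.2.1 := Gi_coll p hq.2
          have e3 : (coll q).1 = vp q := rfl
          rw [e2, e3, abs_sub_comm]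
        rcases le_total (len (q.1 - v₀)) (len (vp q - v₀)) with h | h
        · have e4 : waH γ b ε p v₀ ψ q = ENNReal.ofReal (waF γ b ε p ψ q) := if_pos h
          rw [e4]; exact le_self_add
        · have e4 : waH γ b ε p v₀ ψ (coll q) = ENNReal.ofReal (waF γ b ε p ψ q) := by
            have e5 : len ((coll q).1 - v₀) ≤ len (vp (coll q) - v₀) := by
              rw [vp_coll hq.1 hq.2]; exact h
            unfold waH
            rw [if_pos e5, e1]
          rw [e4]; exact le_add_self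
    _ = _ := by rw [lintegral_add_left hH, h1, two_mul]

theorem wa_main (H : Hyp d γ s b C Ca) (h2s : 2 * s < 1) (hγ : 0 ≤ γ) (hα : -1 ≤ α) (hα0 : α ≤ 0)
    (hp : d + 5 ≤ p) : ∃ K : ℝ, 0 ≤ K ∧ ∀ ε : ℝ, 0 < ε → ε ≤ 1 → ∀ (v₀ : Vec d) (A : ℝ) (ψ : Vec d → ℝ),
      0 ≤ A → CuS α v₀ A ψ →
      ∫⁻ q, ENNReal.ofReal (kt γ b ε q * (Gi p q.1 q.2.1 * |ψ (vp q) - ψ q.1|)) ∂(mu3 d) ≤
        ENNReal.ofReal (K * A * jb v₀ ^ α) := by
  have hs := H.hs
  obtain ⟨K₁, hK₁, hang⟩ := cu_ang H h2s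
  obtain ⟨Ka, hKa, hca⟩ := conv_base (d := d) (β := α) H.hd (by linarith) hα0
  obtain ⟨Kb, hKb, hcb⟩ := conv_base (d := d) (β := α - 2 * s) H.hd (by linarith) (by linarith)
  obtain ⟨Kc, hKc, hcc⟩ := conv_base (d := d) (β := 0) H.hd (by norm_num) le_rfl
  refine ⟨2 * (4 * K₁ * ((2 * Ka + Kb) * Kc)), by positivity, fun ε hε hε1 v₀ A ψ hA hψ => ?_⟩
  refine (wa_sym (γ := γ) (ε := ε) (p := p) H.hd1 H.bm v₀ hψ.meas).trans ?_
  have hHm := waH_meas (γ := γ) (ε := ε) (p := p) H.bm v₀ hψ.meas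
  have hne : Nonempty (Fin d) := ⟨⟨0, by have := H.hd1; omega⟩⟩
  have hj0 := jb_pos v₀
  have hj1 := one_le_jb v₀
  -- the pointwise bound
  have key : ∀ v w : Vec d, v ≠ v₀ → v ≠ w →
      ∫⁻ σ, waH γ b ε p v₀ ψ (v, w, σ) ∂(surf d) ≤
        ENNReal.ofReal (4 * A * K₁ * (2 * cvF α v₀ v + cvF (α - 2 * s) v₀ v)) *
          ENNReal.ofReal (cvF 0 0 w) := by
    intro v w hv hvw
    have hρ : 0 < len (v - v₀) := len_pos (sub_ne_zero.2 hv)
    set ρ := len (v - v₀) with hρd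
    have hρ' : 0 < (1 + 1 / ρ)⁻¹ := by positivity
    have hV := Real.rpow_nonneg (len_nonneg (v - w)) γ
    have hG := (Gi_pos p v w).le
    have hρα := Real.rpow_nonneg hρ.le α
    have h1 : ∫⁻ σ, waH γ b ε p v₀ ψ (v, w, σ) ∂(surf d) ≤
        ∫⁻ σ, ENNReal.ofReal (A * ρ ^ α * Gi p v w * len (v - w) ^ γ) *
          ENNReal.ofReal (bt b ε (cosTh v w σ) * min 1 (len (post v w σ - v) / (1 + 1 / ρ)⁻¹)) ∂(surf d) := by
      refine lintegral_mono_ae ?_
      filter_upwards [surf_ae] with σ hσ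
      unfold waH
      simp only
      split_ifs with hc
      swap
      · exact zero_le
      have hvp : vp (v, w, σ) = post v w σ := rfl
      rw [hvp] at hc
      have hv' : post v w σ ≠ v₀ := by
        intro h
        rw [h, sub_self, len_zero] at hc
        linarith
      have hbt : 0 ≤ bt b ε (cosTh v w σ) := by
        have hc1 := abs_le.1 (abs_cosTh_le (v := v) (w := w) hσ)
        exact Pool.Agent.H82.BK.bt_nonneg H.bd hε hc1.1 hc1.2
      rw [← ENNReal.ofReal_mul (by positivity)]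
      refine ENNReal.ofReal_le_ofReal ?_
      have h3 := hψ.h2 v (post v w σ) hv hv' hc
      have e1 : len (v - post v w σ) * (1 + 1 / len (v - v₀)) = len (post v w σ - v) / (1 + 1 / ρ)⁻¹ := by
        rw [div_inv_eq_mul, len_comm]
      rw [e1] at h3
      unfold waF
      simp only [hvp]
      change len (v - w) ^ γ * bt b ε (cosTh v w σ) * (Gi p v w * |ψ (post v w σ) - ψ v|) ≤ _
      rw [abs_sub_comm]
      calc len (v - w) ^ γ * bt b ε (cosTh v w σ) * (Gi p v w * |ψ v - ψ (post v w σ)|)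
          ≤ len (v - w) ^ γ * bt b ε (cosTh v w σ) * (Gi p v w *
            (A * (ρ ^ α * min 1 (len (post v w σ - v) / (1 + 1 / ρ)⁻¹)))) := by gcongr
        _ = _ := by ring
    refine h1.trans ?_
    rw [lintegral_const_mul' _ _ ENNReal.ofReal_ne_top]
    refine (mul_le_mul_right (hang ε hε hε1 v w hvw _ hρ') _).trans ?_
    have hqC0 : 0 ≤ qC s ε (1 + 1 / ρ)⁻¹ v w := by
      unfold qC
      exact Real.rpow_nonneg (le_max_of_le_left hε.le) _
    have hcvA : 0 ≤ cvF α v₀ v := by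
      unfold cvF; have := jb_pos v; positivity
    have hcvB : 0 ≤ cvF (α - 2 * s) v₀ v := by
      have := jb_pos v
      have := Real.rpow_nonneg (len_nonneg (v - v₀)) (α - 2 * s)
      unfold cvF; positivity
    rw [← ENNReal.ofReal_mul (by positivity), ← ENNReal.ofReal_mul (by positivity)]
    refine ENNReal.ofReal_le_ofReal ?_
    have h4 := wa_qC hs hε hvw hρ'
    have h5 := wa_ker hs h2s hγ H.h2 hvw hρ
    have h6 := wa_Gi_le hp v w
    have e2 : ρ ^ α * ρ ^ (-(2 * s)) = ρ ^ (α - 2 * s) := by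
      rw [← Real.rpow_add hρ]; rfl
    have hw0 := jb_pos w
    have hv0 := jb_pos v
    calc A * ρ ^ α * Gi p v w * len (v - w) ^ γ * (K₁ * qC s ε (1 + 1 / ρ)⁻¹ v w)
        ≤ A * ρ ^ α * Gi p v w * len (v - w) ^ γ * (K₁ * (1 + (len (v - w) / (1 + 1 / ρ)⁻¹) ^ (2 * s))) := by
          gcongr
      _ = A * K₁ * ρ ^ α * Gi p v w * (len (v - w) ^ γ * (1 + (len (v - w) / (1 + 1 / ρ)⁻¹) ^ (2 * s))) := by
          ring
      _ ≤ A * K₁ * ρ ^ α * Gi p v w * (4 * (jb v ^ 2 * jb w ^ 2) * (2 + ρ ^ (-(2 * s)))) := by gcongr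
      _ = 4 * A * K₁ * ρ ^ α * (2 + ρ ^ (-(2 * s))) * (Gi p v w * (jb v ^ 2 * jb w ^ 2)) := by ring
      _ ≤ 4 * A * K₁ * ρ ^ α * (2 + ρ ^ (-(2 * s))) * ((jb v ^ (d + 3))⁻¹ * (jb w ^ (d + 3))⁻¹) := by
          have : 0 ≤ ρ ^ (-(2 * s)) := by positivity
          gcongr
      _ = 4 * A * K₁ * (2 * ((jb v ^ (d + 3))⁻¹ * ρ ^ α) + (jb v ^ (d + 3))⁻¹ * (ρ ^ α * ρ ^ (-(2 * s)))) *
            (jb w ^ (d + 3))⁻¹ := by ring
      _ = _ := by
          rw [e2]
          unfold cvF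
          rw [Real.rpow_zero, mul_one]
  -- integration
  have hfin : ∫⁻ q, waH γ b ε p v₀ ψ q ∂(mu3 d) ≤
      ENNReal.ofReal (4 * A * K₁ * ((2 * Ka + Kb) * jb v₀ ^ α)) * ENNReal.ofReal Kc := by
    rw [lintegral_prod _ hHm.aemeasurable]
    obtain ⟨ia, Ia⟩ := hca v₀
    obtain ⟨ib, Ib⟩ := hcb v₀
    obtain ⟨ic, Ic⟩ := hcc 0
    have cv0 : ∀ (β : ℝ) (u z : Vec d), 0 ≤ cvF β u z := fun β u z => by
      have := jb_pos z
      have := Real.rpow_nonneg (len_nonneg (z - u)) β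
      unfold cvF; positivity
    have hw : ∫⁻ w : Vec d, ENNReal.ofReal (cvF 0 0 w) ≤ ENNReal.ofReal Kc := by
      rw [← ofReal_integral_eq_lintegral_ofReal ic (Eventually.of_forall fun w => cv0 _ _ _)]
      refine ENNReal.ofReal_le_ofReal ?_
      rw [Real.rpow_zero, mul_one] at Ic
      exact Ic
    have hv : ∫⁻ v : Vec d, ENNReal.ofReal (4 * A * K₁ * (2 * cvF α v₀ v + cvF (α - 2 * s) v₀ v)) ≤
        ENNReal.ofReal (4 * A * K₁ * ((2 * Ka + Kb) * jb v₀ ^ α)) := by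
      have i1 : Integrable fun v : Vec d => 4 * A * K₁ * (2 * cvF α v₀ v + cvF (α - 2 * s) v₀ v) :=
        ((ia.const_mul 2).add ib).const_mul _
      rw [← ofReal_integral_eq_lintegral_ofReal i1 (Eventually.of_forall fun v => by
        have := cv0 α v₀ v
        have := cv0 (α - 2 * s) v₀ v
        positivity)]
      refine ENNReal.ofReal_le_ofReal ?_
      rw [integral_const_mul, integral_add (ia.const_mul 2) ib, integral_const_mul]
      have h7 : jb v₀ ^ (α - 2 * s) ≤ jb v₀ ^ α :=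
        Real.rpow_le_rpow_of_exponent_le hj1 (by linarith)
      have h8 : Kb * jb v₀ ^ (α - 2 * s) ≤ Kb * jb v₀ ^ α := mul_le_mul_of_nonneg_left h7 hKb
      refine mul_le_mul_of_nonneg_left ?_ (by positivity)
      linarith
    calc ∫⁻ v, ∫⁻ y : Vec d × Vec d, waH γ b ε p v₀ ψ (v, y) ∂((volume : Measure (Vec d)).prod (surf d))
        ≤ ∫⁻ v : Vec d, ENNReal.ofReal (4 * A * K₁ * (2 * cvF α v₀ v + cvF (α - 2 * s) v₀ v)) *
            ENNReal.ofReal Kc := by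
          have h0 : ∀ᵐ v : Vec d ∂volume, v ∉ ({v₀} : Set (Vec d)) :=
            (Set.countable_singleton v₀).ae_notMem volume
          refine lintegral_mono_ae ?_
          filter_upwards [h0] with v hv0
          have hv : v ≠ v₀ := fun h => hv0 h
          have hm' : Measurable fun y : Vec d × Vec d => waH γ b ε p v₀ ψ (v, y) :=
            hHm.comp measurable_prodMk_left
          rw [lintegral_prod _ hm'.aemeasurable]
          refine le_trans ?_ (mul_le_mul_right hw _)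
          rw [← lintegral_const_mul' _ _ ENNReal.ofReal_ne_top]
          have h00 : ∀ᵐ w : Vec d ∂volume, w ∉ ({v} : Set (Vec d)) :=
            (Set.countable_singleton v).ae_notMem volume
          refine lintegral_mono_ae ?_
          filter_upwards [h00] with w hw0
          exact key v w hv fun h => hw0 h.symm
      _ = (∫⁻ v : Vec d, ENNReal.ofReal (4 * A * K₁ * (2 * cvF α v₀ v + cvF (α - 2 * s) v₀ v))) *
            ENNReal.ofReal Kc := lintegral_mul_const' _ _ ENNReal.ofReal_ne_top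
      _ ≤ _ := mul_le_mul_left hv _
  refine (mul_le_mul_right hfin 2).trans ?_
  have e2 : (2 : ℝ≥0∞) = ENNReal.ofReal 2 := by simp
  have hja := Real.rpow_nonneg hj0.le α
  rw [e2, ← ENNReal.ofReal_mul (by positivity), ← ENNReal.ofReal_mul (by positivity)]
  refine ENNReal.ofReal_le_ofReal (le_of_eq ?_)
  ring

end Pool.Agent.H87.DW
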