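import Pool.Agent.H87.DW.WA

/-!
# The weak form (W2)
-/

set_option autoImplicit false

open MeasureTheory Set Filter Topology Pool.Agent.H25.Kin Pool.Agent.H48.PL Pool.Agent.H48.PI Pool.Agent.H48.PW
open Pool.Agent.H15.AV (kt vp wp kt_meas measurable_vp measurable_wp kt_coll vp_coll wp_coll kt_int kt_nonneg
  kt_swap kt_swap_int boltzCut_fold)
open scoped ENNReal

namespace Pool.Agent.H87.DW

variable {d p : ℕ} {a α s γ C Ca ε Λ : ℝ} {b : ℝ → ℝ}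

lemma int_gg (H : Hyp d γ s b C Ca) (hε : 0 < ε) {g : Vec d → ℝ} (hg : RD g) (hgm : Measurable g)
    {F : Vec d × Vec d × Vec d → ℝ} (hF : Measurable F) {B : ℝ} (hB : ∀ q, |F q| ≤ B) :
    Integrable (fun q => kt γ b ε q * (g q.2.1 * g q.1 * F q)) (mu3 d) := by
  obtain ⟨K, hK0, hK⟩ := hg.bound (d + 1 + (d + 5))
  have hB0 : 0 ≤ B := (abs_nonneg _).trans (hB (0, 0, 0))
  refine kt_int H hε (((hgm.comp (measurable_fst.comp measurable_snd)).mul (hgm.comp measurable_fst)).mul hF)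
    (A := K * K * B) (by positivity) fun q _ _ => ?_
  have h1 := hK q.1
  have h2 := hK q.2.1
  rw [Real.norm_eq_abs] at h1 h2
  have p1 := pow_pos (w_pos q.1) (d + 1 + (d + 5))
  have p2 := pow_pos (w_pos q.2.1) (d + 1 + (d + 5))
  rw [abs_mul, abs_mul]
  calc |g q.2.1| * |g q.1| * |F q|
      ≤ (K * ((1 + ‖q.2.1‖) ^ (d + 1 + (d + 5)))⁻¹) * (K * ((1 + ‖q.1‖) ^ (d + 1 + (d + 5)))⁻¹) * B := by
        gcongr
        exact hB q
    _ = _ := by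
        unfold pw
        rw [mul_pow, mul_inv]
        ring

theorem cut_fold_bd (H : Hyp d γ s b C Ca) (hε : 0 < ε) {g : Vec d → ℝ} (hg : RD g)
    (hgc : Continuous g) {ψ : Vec d → ℝ} (hψ : Measurable ψ) {B : ℝ} (hB : ∀ v, |ψ v| ≤ B) :
    ∫ v, boltzCut γ b ε g v * ψ v =
      ∫ q, kt γ b ε q * (g q.2.1 * g q.1 * (ψ (vp q) - ψ q.1)) ∂(mu3 d) := by
  have hgm := hgc.measurable
  have iA := int_gg (γ := γ) H hε hg hgm (F := fun q => ψ (vp q)) (hψ.comp measurable_vp) (fun q => hB _)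
  have iB := int_gg (γ := γ) H hε hg hgm (F := fun q => ψ q.1) (hψ.comp measurable_fst) (fun q => hB _)
  have hF : Measurable fun q : Vec d × Vec d × Vec d × Vec d =>
      (fun v w v' _ : Vec d => g w * g v * ψ v') q.1 q.2.1 q.2.2.1 q.2.2.2 := by
    have m1 : Measurable fun q : Vec d × Vec d × Vec d × Vec d => g q.2.1 :=
      hgm.comp (measurable_fst.comp measurable_snd)
    have m2 : Measurable fun q : Vec d × Vec d × Vec d × Vec d => g q.1 := hgm.comp measurable_fst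
    have m3 : Measurable fun q : Vec d × Vec d × Vec d × Vec d => ψ q.2.2.1 :=
      hψ.comp (measurable_fst.comp (measurable_snd.comp measurable_snd))
    exact (m1.mul m2).mul m3
  have iC := kt_swap_int (γ := γ) (b := b) (ε := ε) H.hd1 H.bm
    (F := fun v w v' _ : Vec d => g w * g v * ψ v') hF iA
  have eC := kt_swap (γ := γ) (b := b) (ε := ε) H.hd1 H.bm
    (F := fun v w v' _ : Vec d => g w * g v * ψ v') hF
  have i3 : Integrable (fun q => kt γ b ε q *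
      (ψ q.1 * (g (wp q) * g (vp q) - g q.2.1 * g q.1))) (mu3 d) := by
    refine (iC.sub iB).congr (Eventually.of_forall fun q => ?_)
    simp only [Pi.sub_apply]
    ring
  have e1 : ∫ v, boltzCut γ b ε g v * ψ v =
      ∫ q, kt γ b ε q * (ψ q.1 * (g (wp q) * g (vp q) - g q.2.1 * g q.1)) ∂(mu3 d) := by
    rw [integral_prod _ i3]
    refine integral_congr_ae ?_
    filter_upwards [i3.prod_right_ae] with v hv
    rw [integral_prod _ hv, boltzCut_fold H hε hg hgc v, mul_comm, ← integral_const_mul]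
    refine integral_congr_ae (Eventually.of_forall fun w => ?_)
    simp only
    rw [← integral_const_mul]
    refine integral_congr_ae (Eventually.of_forall fun σ => ?_)
    simp only [wp, vp]
    ring
  have e2 : ∫ q, kt γ b ε q * (ψ q.1 * (g (wp q) * g (vp q) - g q.2.1 * g q.1)) ∂(mu3 d) =
      (∫ q, kt γ b ε q * (g (wp q) * g (vp q) * ψ q.1) ∂(mu3 d)) -
        ∫ q, kt γ b ε q * (g q.2.1 * g q.1 * ψ q.1) ∂(mu3 d) := by
    rw [← integral_sub iC iB]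
    refine integral_congr_ae (Eventually.of_forall fun q => ?_)
    simp only
    ring
  have e3 : ∫ q, kt γ b ε q * (g q.2.1 * g q.1 * (ψ (vp q) - ψ q.1)) ∂(mu3 d) =
      (∫ q, kt γ b ε q * (g q.2.1 * g q.1 * ψ (vp q)) ∂(mu3 d)) -
        ∫ q, kt γ b ε q * (g q.2.1 * g q.1 * ψ q.1) ∂(mu3 d) := by
    rw [← integral_sub iA iB]
    refine integral_congr_ae (Eventually.of_forall fun q => ?_)
    simp only
    ring
  rw [e1, e2, e3]
  congr 1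

/-- W1 -/
theorem w1 (H : Hyp d γ s b C Ca) (h2s : 2 * s < 1) (hγ : 0 ≤ γ) (hα : -1 ≤ α) (hα0 : α ≤ 0)
    (hp : d + 5 ≤ p) : ∃ K : ℝ, 0 ≤ K ∧ ∀ ε : ℝ, 0 < ε → ε ≤ 1 → ∀ Λ : ℝ, 0 ≤ Λ → ∀ g h : Vec d → ℝ,
      (∀ v, 0 ≤ g v) → (∀ v, g v * (1 + nsq v) ^ p ≤ Λ) → (∀ v, 0 ≤ h v) → (∀ v, h v ≤ g v) →
      ∀ (v₀ : Vec d) (A : ℝ) (ψ : Vec d → ℝ), 0 ≤ A → CuS α v₀ A ψ →
      |∫ q, kt γ b ε q * (g q.2.1 * h q.1 * (ψ (vp q) - ψ q.1)) ∂(mu3 d)| ≤ K * A * Λ ^ 2 * jb v₀ ^ α := by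
  obtain ⟨K, hK, hm⟩ := wa_main (p := p) H h2s hγ hα hα0 hp
  refine ⟨K, hK, fun ε hε hε1 Λ hΛ g h hg0 hgΛ hh0 hhg v₀ A ψ hA hψ => ?_⟩
  have h1 := hm ε hε hε1 v₀ A ψ hA hψ
  have hj := Real.rpow_nonneg (jb_pos v₀).le α
  have h2 := norm_integral_le_lintegral_norm (μ := mu3 d)
    (fun q => kt γ b ε q * (g q.2.1 * h q.1 * (ψ (vp q) - ψ q.1)))
  rw [Real.norm_eq_abs] at h2
  refine h2.trans (ENNReal.toReal_le_of_le_ofReal (by positivity) ?_)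
  calc ∫⁻ q, ENNReal.ofReal ‖kt γ b ε q * (g q.2.1 * h q.1 * (ψ (vp q) - ψ q.1))‖ ∂(mu3 d)
      ≤ ∫⁻ q, ENNReal.ofReal (Λ ^ 2) * ENNReal.ofReal (kt γ b ε q * (Gi p q.1 q.2.1 * |ψ (vp q) - ψ q.1|)) ∂(mu3 d) := by
        refine lintegral_mono_ae ?_
        filter_upwards [ae_good H.hd1] with q hq
        rw [← ENNReal.ofReal_mul (by positivity)]
        refine ENNReal.ofReal_le_ofReal ?_
        have hk := kt_nonneg (γ := γ) H hε hq.2
        have hgg := gg_le hg0 hgΛ hh0 hhg hΛ q.1 q.2.1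
        have hgh : 0 ≤ g q.2.1 * h q.1 := mul_nonneg (hg0 _) (hh0 _)
        rw [Real.norm_eq_abs, abs_mul, abs_mul, abs_of_nonneg hk, abs_of_nonneg hgh]
        calc kt γ b ε q * (g q.2.1 * h q.1 * |ψ (vp q) - ψ q.1|)
            ≤ kt γ b ε q * (Λ ^ 2 * Gi p q.1 q.2.1 * |ψ (vp q) - ψ q.1|) := by gcongr
          _ = _ := by ring
    _ = ENNReal.ofReal (Λ ^ 2) * ∫⁻ q, ENNReal.ofReal (kt γ b ε q * (Gi p q.1 q.2.1 * |ψ (vp q) - ψ q.1|)) ∂(mu3 d) :=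
        lintegral_const_mul' _ _ ENNReal.ofReal_ne_top
    _ ≤ ENNReal.ofReal (Λ ^ 2) * ENNReal.ofReal (K * A * jb v₀ ^ α) := mul_le_mul_right h1 _
    _ = _ := by
        rw [← ENNReal.ofReal_mul (by positivity)]
        congr 1
        ring

/-- W2, and W4 for `α = 0` -/
theorem weak_s (H : Hyp d (1 + a) s b C Ca) (h2 : 2 * s < 1) (ha : -1 ≤ a) (_ : a ≤ 0)
    (hα : -1 ≤ α) (hα0 : α ≤ 0) (hp : d + 5 ≤ p) :
    ∃ K : ℝ, 0 ≤ K ∧ ∀ Λ : ℝ, 0 ≤ Λ → ∀ g : Vec d → ℝ, Nice g → (∀ v, 0 ≤ g v) →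
      (∀ v, g v * (1 + nsq v) ^ p ≤ Λ) → ∀ (v : Vec d) (A : ℝ) (ψ : Vec d → ℝ), 0 ≤ A →
      CuS α v A ψ → |∫ w, boltzQ (1 + a) b g w * ψ w| ≤ K * A * Λ ^ 2 * jb v ^ α := by
  obtain ⟨K, hK, h1⟩ := w1 (p := p) H h2 (by linarith : 0 ≤ 1 + a) hα hα0 hp
  refine ⟨K, hK, fun Λ hΛ g hg hg0 hgΛ v A ψ hA hψ => ?_⟩
  obtain ⟨B, hB⟩ := hψ.bd
  have hPG : PG ψ := ⟨0, B, fun w => by
    rw [pow_zero, mul_one, Real.norm_eq_abs]; exact hB w⟩
  have hlim := (boltz_weak_tendsto H hg hPG hψ.meas).abs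
  refine le_of_tendsto hlim ?_
  filter_upwards [self_mem_nhdsWithin, Ioc_mem_nhdsGT (one_pos : (0 : ℝ) < 1)] with ε hε hε1
  rw [cut_fold_bd H hε hg.rd hg.cont hψ.meas hB]
  exact h1 ε hε hε1.2 Λ hΛ g g hg0 hgΛ hg0 (fun _ => le_rfl) v A ψ hA hψ

end Pool.Agent.H87.DW
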